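import Pool.Agent.Q170.FP.Gauss
import Pool.Agent.Y108.ZX.Fam2

/-!
The model and its pair relations over all large rings, for a family whose member at a point of the
parameter space over an algebraically closed field is a curve in general position (helper file,
generalises `Pool.Agent.Y108.ZX.fam2`).
-/

set_option autoImplicit false
set_option linter.unusedSectionVars false

namespace Pool.Agent.Q170.FP

open Polynomial
open Pool.Agent.Y226 Pool.Agent.Y226.ZG Pool.Agent.Y226.ZM Pool.Agent.Y226.ZU Pool.Agent.Y92.ZX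
open Pool.Agent.Y108.ZX (lift1 lift2 lift3 map_inj map2_inj map_bh bezout noCommon)

/-- the pair relations, with corners which are not in the kernel of `π` -/
def CorG {A 𝕜 : Type} [CommRing A] [Field 𝕜] {n : ℕ} {κ : Type} (π : A →+* 𝕜)
    (F : κ → MvPolynomial (Fin n × Bool) A) : Prop :=
  ∀ i j : Fin n, i ≠ j → ∃ (a b : ℕ) (g : ℕ → ℕ → A),
    π (g 0 0) ≠ 0 ∧ π (g a 0) ≠ 0 ∧ π (g 0 b) ≠ 0 ∧ π (g a b) ≠ 0 ∧
    (∀ c : 𝕜, ∃ v ≤ b, ∑ u ∈ Finset.range (a + 1), π (g u v) * c ^ u ≠ 0) ∧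
    bh i j a b g ∈ Ideal.span (Set.range F)

theorem unitG {K : Type} [Field K] {R : Subring K} (x : R) (h0 : (x : K) ≠ 0)
    (hR : (x : K)⁻¹ ∈ R) {𝕜 : Type} [Field 𝕜] (χ : R →+* 𝕜) : χ x ≠ 0 := by
  have hu : IsUnit x := by
    refine IsUnit.of_mul_eq_one ⟨(x : K)⁻¹, hR⟩ (Subtype.ext ?_)
    exact mul_inv_cancel₀ h0
  exact (hu.map χ).ne_zero

/-- the pair relations over all large rings -/
theorem corG {n r d₀ : ℕ} {κ : Type} [Finite κ]
    (F : κ → MvPolynomial (Fin n × Bool) (MvPolynomial (Fin r) QA)) {𝒦 : Type} [Field 𝒦]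
    [IsAlgClosed 𝒦] (π : MvPolynomial (Fin r) QA →+* 𝒦) (hF : GM d₀ π F) :
    ∃ (S₀ : Finset QA) (S₁ : Finset 𝒦), ∀ R₀ : Subring QA, (∀ s ∈ S₀, s ∈ R₀) →
      ∃ FR : κ → MvPolynomial (Fin n × Bool) (MvPolynomial (Fin r) R₀),
      (∀ t, MvPolynomial.map (MvPolynomial.map R₀.subtype) (FR t) = F t) ∧ (∀ t, MHom (FR t)) ∧
      ∀ R : Subring 𝒦, (∀ s ∈ S₁, s ∈ R) → ∀ π₁ : MvPolynomial (Fin r) R₀ →+* R,
      (∀ x, (π₁ x : 𝒦) = π (MvPolynomial.map R₀.subtype x)) →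
      ∀ (𝕜 : Type) [Field 𝕜] (χ : R →+* 𝕜), CorG (χ.comp π₁) FR := by
  classical
  have := Fintype.ofFinite κ
  have hLF : Lrg QA (fun R => ∀ t, ∃ fR : MvPolynomial (Fin n × Bool) (MvPolynomial (Fin r) R),
      MvPolynomial.map (MvPolynomial.map R.subtype) fR = F t) := Lrg.all fun t => lift2 (F t)
  have hP : ∀ i j : Fin n, ∃ S₁ : Finset 𝒦, Lrg QA (fun R₀ => i ≠ j →
      ∀ FR : κ → MvPolynomial (Fin n × Bool) (MvPolynomial (Fin r) R₀),
      (∀ t, MvPolynomial.map (MvPolynomial.map R₀.subtype) (FR t) = F t) →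
      ∀ R : Subring 𝒦, (∀ s ∈ S₁, s ∈ R) → ∀ π₁ : MvPolynomial (Fin r) R₀ →+* R,
      (∀ x, (π₁ x : 𝒦) = π (MvPolynomial.map R₀.subtype x)) →
      ∃ (a b : ℕ) (g : ℕ → ℕ → MvPolynomial (Fin r) R₀), ∀ (𝕜 : Type) [Field 𝕜] (χ : R →+* 𝕜),
        χ (π₁ (g 0 0)) ≠ 0 ∧ χ (π₁ (g a 0)) ≠ 0 ∧
        χ (π₁ (g 0 b)) ≠ 0 ∧ χ (π₁ (g a b)) ≠ 0 ∧
        (∀ c : 𝕜, ∃ v ≤ b, ∑ u ∈ Finset.range (a + 1), χ (π₁ (g u v)) * c ^ u ≠ 0) ∧
        bh i j a b g ∈ Ideal.span (Set.range FR)) := by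
    intro i j
    by_cases hij : i = j
    · exact ⟨∅, Lrg.of_forall fun R h => absurd hij h⟩
    obtain ⟨a, b, g, -, -, h1, h2, h3, h4, h5, h6⟩ := hF.gen i j hij
    obtain ⟨q, hq⟩ := Ideal.mem_span_range_iff_exists_fun.1 h6
    obtain ⟨U, hU⟩ := bezout a b (fun u v => π (g u v)) h5
    have L1 : Lrg QA (fun R => ∀ u, u ≤ a → ∀ v, v ≤ b → ∃ gR : MvPolynomial (Fin r) R,
        MvPolynomial.map R.subtype gR = g u v) :=
      Lrg.nat_le a fun u _ => Lrg.nat_le b fun v _ => lift1 (g u v)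
    have L2 : Lrg QA (fun R => ∀ t, ∃ fR : MvPolynomial (Fin n × Bool) (MvPolynomial (Fin r) R),
      MvPolynomial.map (MvPolynomial.map R.subtype) fR = q t) := Lrg.all fun t => lift2 (q t)
    have L3 : Lrg 𝒦 (fun R => ∀ v, v ≤ b → ∃ UR : R[X], UR.map R.subtype = U v) :=
      Lrg.nat_le b fun v _ => lift3 (U v)
    have L4 : Lrg 𝒦 (fun R => (π (g 0 0))⁻¹ ∈ R ∧ (π (g a 0))⁻¹ ∈ R ∧ (π (g 0 b))⁻¹ ∈ R ∧
        (π (g a b))⁻¹ ∈ R) :=
      (Lrg.mem _).and ((Lrg.mem _).and ((Lrg.mem _).and (Lrg.mem _)))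
    obtain ⟨S₁, hS₁⟩ := L3.and L4
    refine ⟨S₁, (L1.and L2).mono ?_⟩
    rintro R₀ ⟨r1, r2⟩ - FR hFR R hR π₁ hπ₁
    obtain ⟨r3, r4, r5, r6, r7⟩ := hS₁ R hR
    choose g' hg' using r1
    choose q' hq' using r2
    choose U' hU' using r3
    obtain ⟨gR, hgR⟩ : ∃ gR : ℕ → ℕ → MvPolynomial (Fin r) R₀, ∀ u, u ≤ a → ∀ v, v ≤ b →
        MvPolynomial.map R₀.subtype (gR u v) = g u v := by
      refine ⟨fun u v => if hu : u ≤ a then (if hv : v ≤ b then g' u hu v hv else 0) else 0, ?_⟩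
      intro u hu v hv
      beta_reduce
      rw [dif_pos hu, dif_pos hv]
      exact hg' u hu v hv
    obtain ⟨UR, hUR⟩ : ∃ UR : ℕ → R[X], ∀ v, v ≤ b → (UR v).map R.subtype = U v := by
      refine ⟨fun v => if hv : v ≤ b then U' v hv else 0, ?_⟩
      intro v hv
      beta_reduce
      rw [dif_pos hv]
      exact hU' v hv
    have hval : ∀ u, u ≤ a → ∀ v, v ≤ b → (π₁ (gR u v) : 𝒦) = π (g u v) := by
      intro u hu v hv
      rw [hπ₁, hgR u hu v hv]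
    refine ⟨a, b, gR, fun 𝕜 _ χ => ⟨?_, ?_, ?_, ?_, ?_, ?_⟩⟩
    · exact unitG _ (by rw [hval 0 (by omega) 0 (by omega)]; exact h1)
        (by rw [hval 0 (by omega) 0 (by omega)]; exact r4) χ
    · exact unitG _ (by rw [hval a le_rfl 0 (by omega)]; exact h2)
        (by rw [hval a le_rfl 0 (by omega)]; exact r5) χ
    · exact unitG _ (by rw [hval 0 (by omega) b le_rfl]; exact h3)
        (by rw [hval 0 (by omega) b le_rfl]; exact r6) χ
    · exact unitG _ (by rw [hval a le_rfl b le_rfl]; exact h4)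
        (by rw [hval a le_rfl b le_rfl]; exact r7) χ
    · intro c
      exact noCommon χ a b (fun u v => π (g u v)) (fun u v => π₁ (gR u v)) hval U UR hUR hU c
    · rw [Ideal.mem_span_range_iff_exists_fun]
      refine ⟨q', ?_⟩
      apply map2_inj R₀
      rw [map_bh (MvPolynomial.map R₀.subtype) i j a b gR g hgR, ← hq, map_sum]
      refine Finset.sum_congr rfl fun t _ => ?_
      rw [map_mul, hq', hFR]
  choose S₁ hS₁ using hP
  obtain ⟨S₀, hS₀⟩ := hLF.and (Lrg.all fun i => Lrg.all fun j => hS₁ i j)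
  refine ⟨S₀, Finset.univ.biUnion fun i => Finset.univ.biUnion fun j => S₁ i j, fun R₀ hR₀ => ?_⟩
  obtain ⟨r1, r2⟩ := hS₀ R₀ hR₀
  choose FR hFR using r1
  refine ⟨FR, hFR, fun t => ?_, fun R hR π₁ hπ₁ 𝕜 _ χ i j hij => ?_⟩
  · obtain ⟨δ, hδ⟩ := hF.hom t
    refine ⟨δ, fun s hs => hδ s ?_⟩
    rw [← hFR t, MvPolynomial.support_map_of_injective _ (map_inj R₀)]
    exact hs
  · obtain ⟨a, b, g, h⟩ := r2 i j hij FR hFR R (fun s hs => hR s (Finset.mem_biUnion.2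
      ⟨i, Finset.mem_univ i, Finset.mem_biUnion.2 ⟨j, Finset.mem_univ j, hs⟩⟩)) π₁ hπ₁
    exact ⟨a, b, g, h 𝕜 χ⟩

end Pool.Agent.Q170.FP
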