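import Pool.Agent.Q170.ZP.MultiCount

/-!
Integral points of a box for which all large prime factors of a polynomial divide a polynomial in the
other variables (helper file, variant of `Pool.Agent.Q170.ZP.Count.card_bad`).
-/

set_option autoImplicit false

namespace Pool.Agent.Q170.FP

open MvPolynomial
open Pool.Agent.Q170.ZP.Count

variable {r : ℕ}

open scoped Classical in
/-- the integers all of whose large prime factors divide a given polynomial in the other variables -/
theorem card_core (D : MvPolynomial (Fin r) ℤ) (j : Fin r) (hj : 0 < degreeOf j D)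
    (c : MvPolynomial {i : Fin r // i ≠ j} ℤ) (hc : c ≠ 0) (Q : ℕ) (ε : ℝ) (hε : 0 < ε) :
    ∃ C : ℝ, 0 < C ∧ ∀ H : ℕ, 1 ≤ H →
      (((box r H).filter fun t => ∀ p : ℕ, p.Prime → Q < p → (p : ℤ) ∣ eval t D →
        (p : ℤ) ∣ eval (fun i : {i : Fin r // i ≠ j} => t i) c).card : ℝ) ≤
          C * (H : ℝ) ^ ((r : ℝ) - 1 + ε) := by
  have hr : 1 ≤ r := by
    have := j.2
    omega
  let f := sep j D
  have hfdeg : f.natDegree = degreeOf j D := natDegree_sep j D
  have hf0 : f ≠ 0 := by
    intro h0
    rw [h0, Polynomial.natDegree_zero] at hfdeg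
    omega
  have ha : f.leadingCoeff ≠ 0 := Polynomial.leadingCoeff_ne_zero.2 hf0
  let ρ : MvPolynomial {i : Fin r // i ≠ j} ℤ → MvPolynomial (Fin r) ℤ :=
    fun P => rename Subtype.val P
  have hρ : ∀ P t, eval t (ρ P) = eval (fun i : {i : Fin r // i ≠ j} => t i) P := by
    intro P t
    exact eval_rename _ _ _
  have hρ0 : ∀ P, P ≠ 0 → ρ P ≠ 0 := fun P hP =>
    fun h => hP ((map_eq_zero_iff _ (rename_injective _ Subtype.val_injective)).1 h)
  -- the constants
  obtain ⟨C1, hC1, a1, hsize1⟩ := eval_le D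
  obtain ⟨C2, hC2, a2, hsize2⟩ := eval_le (ρ c)
  let ε' : ℝ := ε / (a1 + a2 + 1)
  have hε' : 0 < ε' := by positivity
  obtain ⟨D1, hD1, hsm⟩ := Pool.Agent.TH867.SR.smooth_count ε' hε'
  let P : MvPolynomial (Fin r) ℤ := ρ f.leadingCoeff * ρ c
  have hP0 : P ≠ 0 := mul_ne_zero (hρ0 _ ha) (hρ0 _ hc)
  let K0 : ℝ := D1 * (C1 : ℝ) ^ ε' * ((Q.factorial * C2 : ℕ) : ℝ) ^ ε'
  have hK0 : 0 < K0 := by
    have h1 : (0 : ℝ) < C1 := by exact_mod_cast hC1
    have h2 : (0 : ℝ) < ((Q.factorial * C2 : ℕ) : ℝ) := by
      exact_mod_cast Nat.mul_pos (Nat.factorial_pos _) hC2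
    positivity
  refine ⟨(P.totalDegree + 2 * f.natDegree * K0 + 1) * 3 ^ (r - 1), by positivity,
    fun H hH => ?_⟩
  have hH1 : (1 : ℝ) ≤ H := by exact_mod_cast hH
  have hH0 : (0 : ℝ) < H := by linarith
  set Bad := (box r H).filter fun t => ∀ p : ℕ, p.Prime → Q < p → (p : ℤ) ∣ eval t D →
        (p : ℤ) ∣ eval (fun i : {i : Fin r // i ≠ j} => t i) c with hBad
  have hsplit : Bad.card ≤ ((box r H).filter fun t => eval t P = 0).card +
      (Bad.filter fun t => eval t P ≠ 0).card := by
    rw [← Finset.card_filter_add_card_filter_not (s := Bad) (fun t => eval t P = 0)]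
    refine Nat.add_le_add_right (Finset.card_le_card ?_) _
    intro t ht
    rw [Finset.mem_filter] at ht ⊢
    exact ⟨(Finset.mem_filter.1 ht.1).1, ht.2⟩
  -- the fibres
  let Kn : ℕ := 2 * f.natDegree * ((Finset.Icc 1 (C1 * H ^ a1)).filter fun a =>
    a.primeFactors ⊆ (Q.factorial * (C2 * H ^ a2)).primeFactors).card
  have hKn : True := trivial
  have hfib : ∀ s : Fin r → ℤ,
      (((Bad.filter fun t => eval t P ≠ 0).filter fun t => Function.update t j 0 = s).card : ℝ) ≤
        2 * f.natDegree * (K0 * (H : ℝ) ^ ε) := by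
    intro s
    rcases ((Bad.filter fun t => eval t P ≠ 0).filter fun t =>
      Function.update t j 0 = s).eq_empty_or_nonempty with hemp | ⟨t0, ht0⟩
    · rw [hemp, Finset.card_empty, Nat.cast_zero]
      positivity
    rw [Finset.mem_filter, Finset.mem_filter, hBad, Finset.mem_filter] at ht0
    obtain ⟨⟨⟨ht0b, -⟩, ht0P⟩, ht0s⟩ := ht0
    -- everything depends on the restriction of `t0`
    let w : {i : Fin r // i ≠ j} → ℤ := fun i => t0 i
    have hres : ∀ t : Fin r → ℤ, Function.update t j 0 = s →
        (fun i : {i : Fin r // i ≠ j} => t i) = w := by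
      intro t ht
      funext i
      have h1 := congrFun (ht.trans ht0s.symm) i
      rwa [Function.update_of_ne i.2, Function.update_of_ne i.2] at h1
    rw [map_mul, hρ, hρ] at ht0P
    have haw : eval w f.leadingCoeff ≠ 0 := fun h => ht0P (by rw [h, zero_mul])
    have hcw : eval w c ≠ 0 := fun h => ht0P (by rw [h, mul_zero])
    let F : Polynomial ℤ := f.map (eval w)
    have hFlc : F.coeff f.natDegree ≠ 0 := by
      rw [Polynomial.coeff_map]
      exact haw
    have hcsize : (eval w c).natAbs ≤ C2 * H ^ a2 := by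
      have h1 := hsize2 H hH t0 (mem_box.1 ht0b)
      rwa [hρ] at h1
    let Rn : ℕ := Q.factorial * (eval w c).natAbs
    have hRn : 1 ≤ Rn := Nat.mul_pos (Nat.factorial_pos _) (Int.natAbs_pos.2 hcw)
    let Sm : Finset ℕ := (Finset.Icc 1 (C1 * H ^ a1)).filter fun a =>
      a.primeFactors ⊆ Rn.primeFactors
    have hSm : (Sm.card : ℝ) ≤ K0 * (H : ℝ) ^ ε := by
      have h1 := hsm (C1 * H ^ a1) Rn (Nat.mul_pos hC1 (by positivity)) hRn
      refine h1.trans ?_
      have h2 : ((C1 * H ^ a1 : ℕ) : ℝ) ^ ε' = (C1 : ℝ) ^ ε' * (H : ℝ) ^ (a1 * ε') := by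
        push_cast
        rw [Real.mul_rpow (by positivity) (by positivity), ← Real.rpow_natCast,
          ← Real.rpow_mul hH0.le]
      have h3 : ((Rn : ℕ) : ℝ) ^ ε' ≤ ((Q.factorial * C2 : ℕ) : ℝ) ^ ε' * (H : ℝ) ^ (a2 * ε') := by
        have h4 : ((Rn : ℕ) : ℝ) ≤ ((Q.factorial * C2 : ℕ) : ℝ) * (H : ℝ) ^ a2 := by
          have h5 : Rn ≤ Q.factorial * C2 * H ^ a2 := by
            rw [mul_assoc]
            exact Nat.mul_le_mul_left _ hcsize
          exact_mod_cast h5
        refine (Real.rpow_le_rpow (by positivity) h4 hε'.le).trans (le_of_eq ?_)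
        rw [Real.mul_rpow (by positivity) (by positivity), ← Real.rpow_natCast (H : ℝ) a2,
          ← Real.rpow_mul hH0.le]
      rw [h2]
      calc D1 * ((C1 : ℝ) ^ ε' * (H : ℝ) ^ (a1 * ε')) * (Rn : ℝ) ^ ε' ≤
          D1 * ((C1 : ℝ) ^ ε' * (H : ℝ) ^ (a1 * ε')) *
            (((Q.factorial * C2 : ℕ) : ℝ) ^ ε' * (H : ℝ) ^ (a2 * ε')) :=
            mul_le_mul_of_nonneg_left h3 (by positivity)
        _ = K0 * (H : ℝ) ^ (a1 * ε' + a2 * ε') := by
            rw [Real.rpow_add hH0]
            ring
        _ ≤ K0 * (H : ℝ) ^ ε := by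
            refine mul_le_mul_of_nonneg_left (Real.rpow_le_rpow_of_exponent_le hH1 ?_) hK0.le
            have h6 : a1 * ε' + a2 * ε' + ε' = ε := by
              simp only [ε']
              field_simp
            linarith
    -- the values
    have hval : ∀ t ∈ (Bad.filter fun t => eval t P ≠ 0).filter fun t =>
        Function.update t j 0 = s, (F.eval (t j)).natAbs ∈ Sm := by
      intro t ht
      rw [Finset.mem_filter, Finset.mem_filter, hBad, Finset.mem_filter] at ht
      obtain ⟨⟨⟨htb, htbad⟩, -⟩, hts⟩ := ht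
      have hev : eval t D = F.eval (t j) := by
        rw [eval_sep j, hres t hts]
      have hdvd : ∀ p : ℕ, p.Prime → Q < p → (p : ℤ) ∣ eval t D → (p : ℤ) ∣ eval w c := by
        intro p hp hpQ hpD
        have h1 := htbad p hp hpQ hpD
        rwa [hres t hts] at h1
      have hne : eval t D ≠ 0 := by
        intro h0
        obtain ⟨p, hpge, hp⟩ := Nat.exists_infinite_primes (Q + (eval w c).natAbs + 1)
        have h1 := hdvd p hp (by omega) (by rw [h0]; exact dvd_zero _)
        have h2 := Int.natAbs_dvd_natAbs.2 h1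
        rw [Int.natAbs_natCast] at h2
        have h3 := Nat.le_of_dvd (Int.natAbs_pos.2 hcw) h2
        omega
      rw [← hev, Finset.mem_filter, Finset.mem_Icc]
      refine ⟨⟨Int.natAbs_pos.2 hne, hsize1 H hH t (mem_box.1 htb)⟩, ?_⟩
      intro p hp
      have hpp := Nat.prime_of_mem_primeFactors hp
      have hpd := Nat.dvd_of_mem_primeFactors hp
      rw [Nat.mem_primeFactors]
      refine ⟨hpp, ?_, by omega⟩
      by_cases hpQ : p ≤ Q
      · exact dvd_mul_of_dvd_left ((Nat.Prime.dvd_factorial hpp).2 hpQ) _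
      · have h1 := hdvd p hpp (by omega) (Int.natCast_dvd.2 hpd)
        exact dvd_mul_of_dvd_right (Int.natCast_dvd.1 h1) _
    -- the number of the `t`
    have hcard : ((Bad.filter fun t => eval t P ≠ 0).filter fun t =>
        Function.update t j 0 = s).card ≤ (2 * f.natDegree) * Sm.card := by
      refine Finset.card_le_mul_card_image_of_maps_to hval _ fun v _ => ?_
      let G1 : Polynomial ℤ := F - Polynomial.C (v : ℤ)
      let G2 : Polynomial ℤ := F + Polynomial.C (v : ℤ)
      have hG1c : G1.coeff f.natDegree = F.coeff f.natDegree := by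
        rw [Polynomial.coeff_sub, Polynomial.coeff_C, if_neg (by omega), sub_zero]
      have hG2c : G2.coeff f.natDegree = F.coeff f.natDegree := by
        rw [Polynomial.coeff_add, Polynomial.coeff_C, if_neg (by omega), add_zero]
      have hG1 : G1 ≠ 0 := fun h => hFlc (by rw [← hG1c, h, Polynomial.coeff_zero])
      have hG2 : G2 ≠ 0 := fun h => hFlc (by rw [← hG2c, h, Polynomial.coeff_zero])
      have hFd : F.natDegree ≤ f.natDegree := Polynomial.natDegree_map_le
      have hd1 : G1.natDegree ≤ f.natDegree :=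
        (Polynomial.natDegree_sub_C).le.trans hFd
      have hd2 : G2.natDegree ≤ f.natDegree :=
        (Polynomial.natDegree_add_C).le.trans hFd
      calc (((Bad.filter fun t => eval t P ≠ 0).filter fun t =>
            Function.update t j 0 = s).filter fun t => (F.eval (t j)).natAbs = v).card
          ≤ (G1.roots.toFinset ∪ G2.roots.toFinset).card := by
            refine Finset.card_le_card_of_injOn (fun t => t j) ?_ ?_
            · intro t ht
              rw [Finset.mem_coe, Finset.mem_filter] at ht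
              rw [Finset.mem_coe, Finset.mem_union, Multiset.mem_toFinset, Multiset.mem_toFinset,
                Polynomial.mem_roots hG1, Polynomial.mem_roots hG2, Polynomial.IsRoot.def,
                Polynomial.IsRoot.def, Polynomial.eval_sub, Polynomial.eval_add,
                Polynomial.eval_C]
              rcases Int.natAbs_eq (F.eval (t j)) with h | h
              · left
                rw [h, ht.2, sub_self]
              · right
                rw [h, ht.2, neg_add_cancel]
            · intro t ht t' ht' htt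
              rw [Finset.mem_coe, Finset.mem_filter, Finset.mem_filter] at ht ht'
              funext i
              by_cases hi : i = j
              · rw [hi]
                exact htt
              · have h1 := congrFun (ht.1.2.trans ht'.1.2.symm) i
                rwa [Function.update_of_ne hi, Function.update_of_ne hi] at h1
        _ ≤ G1.roots.toFinset.card + G2.roots.toFinset.card := Finset.card_union_le _ _
        _ ≤ f.natDegree + f.natDegree := by
            refine Nat.add_le_add ?_ ?_
            · exact (Multiset.toFinset_card_le _).trans ((Polynomial.card_roots' _).trans hd1)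
            · exact (Multiset.toFinset_card_le _).trans ((Polynomial.card_roots' _).trans hd2)
        _ = 2 * f.natDegree := by ring
    calc ((((Bad.filter fun t => eval t P ≠ 0).filter fun t =>
          Function.update t j 0 = s).card : ℕ) : ℝ) ≤ ((2 * f.natDegree * Sm.card : ℕ) : ℝ) := by
          exact_mod_cast hcard
      _ = 2 * f.natDegree * (Sm.card : ℝ) := by push_cast; ring
      _ ≤ _ := mul_le_mul_of_nonneg_left hSm (by positivity)
  -- the number of the fibres
  let Bs : Finset (Fin r → ℤ) := Fintype.piFinset fun i : Fin r =>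
    if i = j then {0} else Finset.Icc (-(H : ℤ)) H
  have hBs : Bs.card = (2 * H + 1) ^ (r - 1) := by
    rw [Fintype.card_piFinset, ← Finset.mul_prod_erase Finset.univ _ (Finset.mem_univ j),
      if_pos rfl, Finset.card_singleton, one_mul]
    rw [Finset.prod_congr rfl (g := fun _ => 2 * H + 1) (fun i hi => by
      rw [if_neg (Finset.ne_of_mem_erase hi), Int.card_Icc]
      omega), Finset.prod_const, Finset.card_erase_of_mem (Finset.mem_univ j), Finset.card_univ,
      Fintype.card_fin]
  have hmaps : ∀ t ∈ Bad.filter fun t => eval t P ≠ 0, Function.update t j 0 ∈ Bs := by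
    intro t ht
    rw [Finset.mem_filter, hBad, Finset.mem_filter] at ht
    rw [Fintype.mem_piFinset]
    intro i
    by_cases hi : i = j
    · rw [if_pos hi, hi, Function.update_self, Finset.mem_singleton]
    · rw [if_neg hi, Function.update_of_ne hi]
      exact Fintype.mem_piFinset.1 ht.1.1 i
  have htot : ((Bad.filter fun t => eval t P ≠ 0).card : ℝ) ≤
      (2 * H + 1) ^ (r - 1) * (2 * f.natDegree * (K0 * (H : ℝ) ^ ε)) := by
    rw [Finset.card_eq_sum_card_fiberwise hmaps]
    push_cast
    refine (Finset.sum_le_sum fun s _ => hfib s).trans (le_of_eq ?_)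
    rw [Finset.sum_const, hBs, nsmul_eq_mul]
    push_cast
    ring
  have hzero : ((((box r H).filter fun t => eval t P = 0).card : ℕ) : ℝ) ≤
      P.totalDegree * (2 * H + 1) ^ (r - 1) := by
    exact_mod_cast card_zero P hP0 hr H
  have h2H : ((2 * H + 1 : ℝ)) ^ (r - 1) ≤ 3 ^ (r - 1) * (H : ℝ) ^ (r - 1) := by
    rw [← mul_pow]
    exact pow_le_pow_left₀ (by positivity) (by linarith) _
  have hHε : 1 ≤ (H : ℝ) ^ ε := Real.one_le_rpow hH1 hε.le
  have hexp : (H : ℝ) ^ ((r : ℝ) - 1 + ε) = (H : ℝ) ^ (r - 1) * (H : ℝ) ^ ε := by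
    rw [Real.rpow_add hH0]
    congr 1
    rw [← Real.rpow_natCast]
    congr 1
    rw [Nat.cast_sub hr, Nat.cast_one]
  rw [hexp]
  have hsum : (Bad.card : ℝ) ≤ P.totalDegree * (2 * H + 1) ^ (r - 1) +
      (2 * H + 1) ^ (r - 1) * (2 * f.natDegree * (K0 * (H : ℝ) ^ ε)) := by
    have h1 : (Bad.card : ℝ) ≤ (((box r H).filter fun t => eval t P = 0).card : ℝ) +
      ((Bad.filter fun t => eval t P ≠ 0).card : ℝ) := by exact_mod_cast hsplit
    linarith
  refine hsum.trans ?_
  have hpos1 : (0 : ℝ) ≤ P.totalDegree := Nat.cast_nonneg _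
  have hpos2 : (0 : ℝ) ≤ 2 * f.natDegree * (K0 * (H : ℝ) ^ ε) := by positivity
  calc (P.totalDegree : ℝ) * (2 * H + 1) ^ (r - 1) +
      (2 * H + 1) ^ (r - 1) * (2 * f.natDegree * (K0 * (H : ℝ) ^ ε))
      = (P.totalDegree + 2 * f.natDegree * (K0 * (H : ℝ) ^ ε)) * (2 * H + 1) ^ (r - 1) := by ring
    _ ≤ (P.totalDegree + 2 * f.natDegree * (K0 * (H : ℝ) ^ ε)) *
        (3 ^ (r - 1) * (H : ℝ) ^ (r - 1)) := mul_le_mul_of_nonneg_left h2H (by positivity)
    _ ≤ ((P.totalDegree + 2 * f.natDegree * K0 + 1) * (H : ℝ) ^ ε) *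
        (3 ^ (r - 1) * (H : ℝ) ^ (r - 1)) := by
        refine mul_le_mul_of_nonneg_right ?_ (by positivity)
        nlinarith [mul_nonneg hpos1 (sub_nonneg.2 hHε)]
    _ = _ := by ring

end Pool.Agent.Q170.FP
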