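import Pool.Agent.Q170.FP.Cor
import Pool.Agent.Y92.ZX.FamAll

/-!
The data of a family whose member at a point of the parameter space over an algebraically closed
field is a curve in general position, over all large rings (helper file, generalises
`Pool.Agent.Y92.ZX.fam`).
-/

set_option autoImplicit false
set_option linter.unusedSectionVars false

namespace Pool.Agent.Q170.FP

open Polynomial
open Pool.Agent.Y226 Pool.Agent.Y226.ZG Pool.Agent.Y226.ZM Pool.Agent.Y226.ZU Pool.Agent.Y92.ZX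

/-- the data over all large rings -/
theorem datG {n r : ℕ} (W : ℕ) {d₀ : ℕ} {κ : Type} [Finite κ]
    (F : κ → MvPolynomial (Fin n × Bool) (MvPolynomial (Fin r) QA)) {𝒦 : Type} [Field 𝒦]
    [IsAlgClosed 𝒦] [CharZero 𝒦] (π : MvPolynomial (Fin r) QA →+* 𝒦) (hF : GM d₀ π F) :
    ∃ (N M d D B : ℕ) (S₀ : Finset QA) (S₁ : Finset 𝒦), 0 < N ∧ W * N + W ≤ M ∧
      ∀ R₀ : Subring QA, (∀ s ∈ S₀, s ∈ R₀) →
      ∃ FR : κ → MvPolynomial (Fin n × Bool) (MvPolynomial (Fin r) R₀),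
      (∀ t, MvPolynomial.map (MvPolynomial.map R₀.subtype) (FR t) = F t) ∧ (∀ t, MHom (FR t)) ∧
      ∀ R : Subring 𝒦, (∀ s ∈ S₁, s ∈ R) → ∀ π₁ : MvPolynomial (Fin r) R₀ →+* R,
      (∀ x, (π₁ x : 𝒦) = π (MvPolynomial.map R₀.subtype x)) →
      ∀ (𝕜 : Type) [Field 𝕜] (χ : R →+* 𝕜),
        (∃ 𝓡 : RD 𝕜 n N W M d D, RDB 𝓡 B ∧ Mem (χ.comp π₁) FR 𝓡) ∧ CorG (χ.comp π₁) FR := by
  classical
  let G : Option (Fin n) → κ → MvPolynomial (Fin n) 𝒦 := fun c t =>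
    MvPolynomial.eval₂ (MvPolynomial.C.comp π) (chv c MvPolynomial.X) (F t)
  have hCC : CC d₀ (Ideal.span (Set.range (G none))) :=
    Pool.Agent.Y945.ZX.gmcc _ _ n κ d₀ π F hF
  obtain ⟨N, M, d, D, B, S₀, hN, hM, h1⟩ := Pool.Agent.Y948.ZX.fam1_gen n W d₀ κ G hCC
    (fun N' M' d' D' 𝓡 hR => by
      have h2 := Pool.Agent.Y427.ZX.mem Pool.Agent.Y151.ZX.cht _ _ n κ d₀ π F hF N' W M' d' D' 𝓡 hR
      exact ⟨h2.m1, h2.m2⟩)
  obtain ⟨S₁, S₂, h2⟩ := corG F π hF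
  refine ⟨N, M, d, D, B, S₁, S₀ ∪ S₂, hN, hM, fun R₀ hR₀ => ?_⟩
  obtain ⟨FR, hFR, hHom, hcor⟩ := h2 R₀ hR₀
  refine ⟨FR, hFR, hHom, fun R hR π₁ hπ₁ 𝕜 _ χ =>
    ⟨?_, hcor R (fun s hs => hR s (Finset.mem_union_right _ hs)) π₁ hπ₁ 𝕜 χ⟩⟩
  have hcomp : π.comp (MvPolynomial.map R₀.subtype) = R.subtype.comp π₁ :=
    RingHom.ext fun x => (hπ₁ x).symm
  obtain ⟨𝓡, hB, hm⟩ := h1 R (fun s hs => hR s (Finset.mem_union_left _ hs))
    (fun c t => MvPolynomial.eval₂ (MvPolynomial.C.comp π₁) (chv c MvPolynomial.X) (FR t))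
    (fun c t => by
      rw [chart_map _ π (MvPolynomial.map R₀.subtype) R.subtype hcomp, hFR])
  have hsp : ∀ c : Option (Fin n), ∀ f ∈ Ideal.span (Set.range fun t =>
      MvPolynomial.eval₂ (MvPolynomial.C.comp π₁) (chv c MvPolynomial.X) (FR t)),
        MvPolynomial.map χ f ∈ chI (χ.comp π₁) FR c := by
    intro c f hf
    have h3 := Ideal.mem_map_of_mem (MvPolynomial.map χ) hf
    rw [Ideal.map_span, ← Set.range_comp] at h3
    unfold chI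
    convert h3 using 4 with t
    simp only [Function.comp_apply]
    rw [chart_map _ (χ.comp π₁) (RingHom.id _) χ (RingHom.comp_id _), MvPolynomial.map_id]
  refine ⟨Pool.Agent.Y448.ZX.mapRD χ 𝓡, Pool.Agent.Y448.ZX.mapRD_RDB χ hB, ⟨?_, ?_⟩⟩
  · intro c i s j hij h3 h4
    have h5 := hsp c _ (hm.m1 c i s j hij h3 h4)
    rw [Pool.Agent.Y948.ZX.E2X_map] at h5
    exact h5
  · intro c v w hv hw hvw h3
    have h5 := hsp c _ (hm.m2 c v w hv hw hvw h3)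
    rw [Pool.Agent.Y948.ZX.hpol_map] at h5
    exact h5

end Pool.Agent.Q170.FP
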