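import Mathlib

/-!
Extension of homomorphisms to algebraically closed fields, and descent of prime ideals
(helper file).
-/

set_option autoImplicit false

namespace Pool.Agent.Q170.FP

/-- extension of homomorphisms to integral extensions -/
theorem ext_int {A B 𝕜 : Type} [CommRing A] [CommRing B] [Algebra A B] [Field 𝕜] [IsAlgClosed 𝕜]
    [Algebra.IsIntegral A B] (hinj : Function.Injective (algebraMap A B)) (h : A →+* 𝕜) :
    ∃ χ : B →+* 𝕜, χ.comp (algebraMap A B) = h := by
  classical
  have hker : (RingHom.ker h).IsPrime := RingHom.ker_isPrime h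
  obtain ⟨Q, -, hQ1, hQ2⟩ := Ideal.exists_ideal_over_prime_of_isIntegral (RingHom.ker h)
    (⊥ : Ideal B) (by
      intro a ha
      have h1 : algebraMap A B a = 0 := by simpa using ha
      have h2 : a = 0 := hinj (by rw [h1, map_zero])
      rw [h2]
      exact Ideal.zero_mem _)
  have hk : ∀ a : A, algebraMap A B a ∈ Q ↔ h a = 0 := by
    intro a
    rw [← RingHom.mem_ker, ← hQ2, Ideal.mem_comap]
  -- the algebra structures
  let A' := A ⧸ RingHom.ker h
  let B' := B ⧸ Q
  let i : A' →+* B' := Ideal.Quotient.lift (RingHom.ker h)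
    ((Ideal.Quotient.mk Q).comp (algebraMap A B)) (fun a ha => by
      rw [RingHom.comp_apply, Ideal.Quotient.eq_zero_iff_mem, hk]
      exact ha)
  let g : A' →+* 𝕜 := Ideal.Quotient.lift (RingHom.ker h) h (fun a ha => ha)
  let _ : Algebra A' B' := i.toAlgebra
  let _ : Algebra A' 𝕜 := g.toAlgebra
  have hi : Function.Injective (algebraMap A' B') := by
    rw [injective_iff_map_eq_zero]
    intro a ha
    obtain ⟨a, rfl⟩ := Ideal.Quotient.mk_surjective a
    have h1 : (Ideal.Quotient.mk Q) (algebraMap A B a) = 0 := ha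
    rw [Ideal.Quotient.eq_zero_iff_mem, hk] at h1
    rw [Ideal.Quotient.eq_zero_iff_mem]
    exact h1
  have hg : Function.Injective (algebraMap A' 𝕜) := by
    rw [injective_iff_map_eq_zero]
    intro a ha
    obtain ⟨a, rfl⟩ := Ideal.Quotient.mk_surjective a
    have h1 : h a = 0 := ha
    rw [Ideal.Quotient.eq_zero_iff_mem]
    exact h1
  have hA' : IsDomain A' := Ideal.Quotient.isDomain _
  have hB' : IsDomain B' := Ideal.Quotient.isDomain _
  have h3 : FaithfulSMul A' B' := (faithfulSMul_iff_algebraMap_injective A' B').2 hi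
  have h4 : FaithfulSMul A' 𝕜 := (faithfulSMul_iff_algebraMap_injective A' 𝕜).2 hg
  have h5 : Algebra.IsIntegral A' B' := by
    refine ⟨fun b => ?_⟩
    obtain ⟨b, rfl⟩ := Ideal.Quotient.mk_surjective b
    obtain ⟨q, hq, hq0⟩ := Algebra.IsIntegral.isIntegral (R := A) b
    refine ⟨q.map (Ideal.Quotient.mk (RingHom.ker h)), hq.map _, ?_⟩
    rw [Polynomial.eval₂_map]
    have h6 : (algebraMap A' B').comp (Ideal.Quotient.mk (RingHom.ker h)) =
        (Ideal.Quotient.mk Q).comp (algebraMap A B) := RingHom.ext fun a => rfl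
    rw [h6, ← Polynomial.hom_eval₂, hq0, map_zero]
  have h6 : Algebra.IsAlgebraic A' B' := inferInstance
  let l : B' →ₐ[A'] 𝕜 := IsAlgClosed.lift
  refine ⟨l.toRingHom.comp (Ideal.Quotient.mk Q), RingHom.ext fun a => ?_⟩
  have h7 := l.commutes (Ideal.Quotient.mk (RingHom.ker h) a)
  exact h7

/-- extension of homomorphisms to elements which are integral up to the denominator `c` -/
theorem ext_sub {K 𝕜 : Type} [Field K] [Field 𝕜] [IsAlgClosed 𝕜] (A₁ : Subring K)
    (h₁ : A₁ →+* 𝕜) (c : A₁) (hc : h₁ c ≠ 0) (S : Set K)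
    (hS : ∀ s ∈ S, A₁.subtype.IsIntegralElem ((c : K) * s)) :
    ∃ (R : Subring K) (hR : A₁ ≤ R) (χ : R →+* 𝕜), S ⊆ R ∧
      ∀ a : A₁, χ (Subring.inclusion hR a) = h₁ a := by
  classical
  have hc0 : (c : K) ≠ 0 := by
    intro h0
    apply hc
    have : c = 0 := Subtype.ext h0
    rw [this, map_zero]
  let A₂ := Localization.Away c
  let h₂ : A₂ →+* 𝕜 := IsLocalization.Away.lift c (g := h₁) (isUnit_iff_ne_zero.2 hc)
  let j : A₂ →+* K := IsLocalization.Away.lift c (g := A₁.subtype) (isUnit_iff_ne_zero.2 hc0)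
  have hh₂ : ∀ a, h₂ (algebraMap A₁ A₂ a) = h₁ a := fun a => IsLocalization.Away.lift_eq c _ a
  have hj : ∀ a, j (algebraMap A₁ A₂ a) = (a : K) := fun a => IsLocalization.Away.lift_eq c _ a
  have hjinj : Function.Injective j := by
    rw [injective_iff_map_eq_zero]
    intro x hx
    obtain ⟨⟨a, ⟨_, n, rfl⟩⟩, hxa⟩ := IsLocalization.surj (Submonoid.powers c) x
    have h1 : j x * j (algebraMap A₁ A₂ (c ^ n)) = j (algebraMap A₁ A₂ a) := by
      rw [← map_mul]
      exact congrArg j hxa
    rw [hx, zero_mul, hj] at h1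
    have h2 : a = 0 := Subtype.ext h1.symm
    have h3 : x * algebraMap A₁ A₂ (c ^ n) = 0 := by
      rw [hxa]
      change algebraMap A₁ A₂ a = 0
      rw [h2, map_zero]
    have hu : IsUnit (algebraMap A₁ A₂ (c ^ n)) :=
      IsLocalization.map_units (M := Submonoid.powers c) A₂ ⟨c ^ n, n, rfl⟩
    exact (hu.mul_left_eq_zero).1 h3
  let _ : Algebra A₂ K := j.toAlgebra
  let B := integralClosure A₂ K
  have hinj : Function.Injective (algebraMap A₂ B) := by
    intro x y hxy
    apply hjinj
    have := congrArg (Subtype.val : B → K) hxy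
    exact this
  obtain ⟨χ, hχ⟩ := ext_int (A := A₂) (B := B) hinj h₂
  have hmem : ∀ a : A₁, (a : K) ∈ B := by
    intro a
    have h1 := B.algebraMap_mem (algebraMap A₁ A₂ a)
    have h2 : algebraMap A₂ K (algebraMap A₁ A₂ a) = (a : K) := hj a
    rwa [h2] at h1
  refine ⟨B.toSubring, fun x hx => hmem ⟨x, hx⟩, χ, ?_, ?_⟩
  · intro s hs
    have h1 := hS s hs
    have h2 : IsIntegral A₂ ((c : K) * s) := by
      obtain ⟨q, hq, hq0⟩ := h1
      refine ⟨q.map (algebraMap A₁ A₂), hq.map _, ?_⟩
      rw [Polynomial.eval₂_map]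
      have h3 : (algebraMap A₂ K).comp (algebraMap A₁ A₂) = A₁.subtype := RingHom.ext hj
      rw [h3]
      exact hq0
    have hu : IsUnit (algebraMap A₁ A₂ c) := IsLocalization.Away.algebraMap_isUnit c
    obtain ⟨u, hu⟩ := hu
    have h3 : IsIntegral A₂ (algebraMap A₂ K (u⁻¹ : A₂ˣ)) := isIntegral_algebraMap
    have h4 := h3.mul h2
    have h5 : algebraMap A₂ K (u⁻¹ : A₂ˣ) * (c : K) = 1 := by
      have h6 : (c : K) = algebraMap A₂ K u := by
        rw [hu]
        exact (hj c).symm
      rw [h6, ← map_mul, Units.inv_mul, map_one]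
    rw [← mul_assoc, h5, one_mul] at h4
    exact h4
  · intro a
    have h1 := congrArg (fun f => f (algebraMap A₁ A₂ a)) hχ
    have h2 : χ (algebraMap A₂ B (algebraMap A₁ A₂ a)) = h₁ a := by
      rw [← hh₂ a]
      exact h1
    rw [← h2]
    congr 1
    exact Subtype.ext (hj a).symm

/-- descent of ideals: an ideal over a subfield is the contraction of its extension -/
theorem contr {k K σ κ : Type} [Field k] [Field K] [Finite κ] (i : k →+* K)
    (G : κ → MvPolynomial σ k)
    (f : MvPolynomial σ k)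
    (hf : MvPolynomial.map i f ∈ Ideal.span (Set.range fun t => MvPolynomial.map i (G t))) :
    f ∈ Ideal.span (Set.range G) := by
  classical
  let _ : Algebra k K := i.toAlgebra
  -- a retraction
  obtain ⟨r, hr⟩ : ∃ r : K →ₗ[k] k, ∀ x : k, r (algebraMap k K x) = x := by
    obtain ⟨r, hr⟩ := LinearMap.exists_leftInverse_of_injective (Algebra.linearMap k K)
      (LinearMap.ker_eq_bot.2 (algebraMap k K).injective)
    exact ⟨r, fun x => by
      have := congrArg (fun φ => φ x) hr
      simpa using this⟩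
  let ρ : MvPolynomial σ K → MvPolynomial σ k := fun g =>
    ∑ m ∈ g.support, MvPolynomial.monomial m (r (g.coeff m))
  have hρ : ∀ g m, (ρ g).coeff m = r (g.coeff m) := by
    intro g m
    simp only [ρ, MvPolynomial.coeff_sum, MvPolynomial.coeff_monomial]
    rw [Finset.sum_ite_eq' g.support m]
    split_ifs with h
    · rfl
    · rw [MvPolynomial.notMem_support_iff.1 h, map_zero]
  have hρadd : ∀ g g', ρ (g + g') = ρ g + ρ g' := by
    intro g g'
    ext m
    rw [hρ, MvPolynomial.coeff_add, MvPolynomial.coeff_add, hρ, hρ, map_add]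
  have hρmul : ∀ g q, ρ (g * MvPolynomial.map i q) = ρ g * q := by
    intro g q
    ext m
    rw [hρ, MvPolynomial.coeff_mul, MvPolynomial.coeff_mul, map_sum]
    refine Finset.sum_congr rfl fun x _ => ?_
    rw [MvPolynomial.coeff_map, hρ]
    have h1 : MvPolynomial.coeff x.1 g * i (MvPolynomial.coeff x.2 q) =
        (MvPolynomial.coeff x.2 q) • (MvPolynomial.coeff x.1 g) := by
      rw [Algebra.smul_def, mul_comm]
      rfl
    rw [h1, map_smul, smul_eq_mul, mul_comm]
  have hρmap : ∀ q, ρ (MvPolynomial.map i q) = q := by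
    intro q
    ext m
    rw [hρ, MvPolynomial.coeff_map]
    exact hr _
  have := Fintype.ofFinite κ
  obtain ⟨c, hc⟩ := Ideal.mem_span_range_iff_exists_fun.1 hf
  have hρsum : ∀ s : Finset κ, ρ (∑ t ∈ s, c t * MvPolynomial.map i (G t)) =
      ∑ t ∈ s, ρ (c t) * G t := by
    intro s
    induction s using Finset.induction_on with
    | empty =>
      rw [Finset.sum_empty, Finset.sum_empty]
      have h1 := hρmap 0
      rwa [map_zero] at h1
    | insert t s ht ih => rw [Finset.sum_insert ht, Finset.sum_insert ht, hρadd, hρmul, ih]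
  refine Ideal.mem_span_range_iff_exists_fun.2 ⟨fun t => ρ (c t), ?_⟩
  rw [← hρsum, hc, hρmap]

end Pool.Agent.Q170.FP
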