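import Pool.Agent.Q170.FP.Main

/-!
The exceptional integral members of families of curves with one degenerate hypersurface
(helper file).
-/

set_option autoImplicit false
set_option linter.unusedSectionVars false

open UpperHalfPlane H294ZP IsDedekindDomain NumberField

namespace Pool.Agent.Q170.FP

open Pool.Agent.Y226 Pool.Agent.Y226.ZG Pool.Agent.Y226.ZM Pool.Agent.Y226.ZU Pool.Agent.Y92.ZX
open Pool.Agent.Q170.ZP.Count (box mem_box bezout)
open MvPolynomial (eval eval₂ eval₂Hom degreeOf rename)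

/-- values under the embedding -/
theorem eval_emb {L : IntermediateField ℚ QA} {τ : Type} (f : MvPolynomial τ QA)
    (f' : MvPolynomial τ L) (hf : MvPolynomial.map (algebraMap L QA) f' = f) (s : τ → L) :
    (rA.comp (algebraMap L QA)) (eval s f') =
      eval₂ rA (fun i => (rA.comp (algebraMap L QA)) (s i)) f := by
  rw [← hf, MvPolynomial.eval₂_map]
  have h := MvPolynomial.eval₂_comp_left (rA.comp (algebraMap L QA)) (RingHom.id L) s f'
  rw [RingHom.comp_id] at h
  exact h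

/-- Integral members: all `t` for which a value of the norm of `P` has a large prime factor which does
not divide a polynomial in the other variables. -/
theorem integral_members (n r : ℕ) (κ : Type) [Finite κ] (d₀ : ℕ)
    (F : κ → MvPolynomial (Fin n × Bool) (MvPolynomial (Fin r) QA)) (t₀ : Fin r → ℂ)
    (P : MvPolynomial (Fin r) QA) (hP0 : P ≠ 0) (hP : ∀ f, eval₂Hom rA t₀ f = 0 ↔ P ∣ f)
    (hF : GM d₀ (eval₂Hom rA t₀) F) (f g : Fin n → MvPolynomial (Fin r) QA)
    (hf : ∀ i, eval₂Hom rA t₀ (f i) ≠ 0) (hg : ∀ i, eval₂Hom rA t₀ (g i) ≠ 0) (w : Fin n → ℕ)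
    (hw : ∀ i, 0 < w i) (Γ : Finset ℂ) (hΓ : ∀ γ ∈ Γ, IsAlgebraic ℚ γ) :
    ∃ (j : Fin r) (N : MvPolynomial (Fin r) ℤ) (c : MvPolynomial {i : Fin r // i ≠ j} ℤ) (Q : ℕ),
      0 < degreeOf j N ∧ c ≠ 0 ∧ ∀ t : Fin r → ℤ, (∃ p : ℕ, p.Prime ∧ Q < p ∧ (p : ℤ) ∣ eval t N ∧
        ¬ (p : ℤ) ∣ eval (fun i : {i : Fin r // i ≠ j} => t i) c) →
        ZPC (Γ : Set ℂ) (memH F f g P w (fun l => (t l : ℂ))) := by
  classical
  obtain ⟨Q₁, E₁, hE₁, hcrit⟩ := crit n r κ d₀ F t₀ P hP0 (fun f => (hP f).1) hF f g w hw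
  let E : MvPolynomial (Fin r) QA := E₁ * (∏ i, f i) * ∏ i, g i
  have hE : eval₂Hom rA t₀ E ≠ 0 := by
    simp only [E]
    rw [map_mul, map_mul, map_prod, map_prod]
    exact mul_ne_zero (mul_ne_zero hE₁ (Finset.prod_ne_zero_iff.2 fun i _ => hf i))
      (Finset.prod_ne_zero_iff.2 fun i _ => hg i)
  -- `P` is prime
  have hPp : Prime P := by
    refine ⟨hP0, ?_, ?_⟩
    · intro hu
      have h1 := (hP 1).2 hu.dvd
      rw [map_one] at h1
      exact one_ne_zero h1
    · intro a b hab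
      rw [← hP, map_mul, mul_eq_zero] at hab
      rwa [← hP, ← hP]
  have hrel : IsRelPrime P E := by
    rw [hPp.irreducible.isRelPrime_iff_not_dvd]
    intro h
    exact hE ((hP E).2 h)
  -- the variable
  obtain ⟨j, hj⟩ : ∃ j, 0 < degreeOf j P := by
    by_contra hcon
    push Not at hcon
    have h1 : ∀ u ∈ P.support, u = 0 := by
      intro u hu
      ext i
      have h2 := MvPolynomial.monomial_le_degreeOf i hu
      have h3 := hcon i
      rw [Finsupp.zero_apply]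
      omega
    have h2 : P.totalDegree = 0 := by
      rw [MvPolynomial.totalDegree_eq_zero_iff]
      intro u hu i
      rw [h1 u hu, Finsupp.zero_apply]
    rw [MvPolynomial.totalDegree_eq_zero_iff_eq_C] at h2
    apply hPp.not_isUnit
    rw [h2]
    refine IsUnit.map MvPolynomial.C (isUnit_iff_ne_zero.2 fun h0 => hP0 ?_)
    rw [h2, h0, map_zero]
  -- the Bezout relation
  have hfg : IsRelPrime (sepR QA j P) (sepR QA j E) := by
    intro d hdf hdg
    have h1 : (sepR QA j).symm d ∣ P := by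
      have := map_dvd (sepR QA j).symm hdf
      rwa [AlgEquiv.symm_apply_apply] at this
    have h2 : (sepR QA j).symm d ∣ E := by
      have := map_dvd (sepR QA j).symm hdg
      rwa [AlgEquiv.symm_apply_apply] at this
    have h3 := (hrel h1 h2).map (sepR QA j)
    rwa [AlgEquiv.apply_symm_apply] at h3
  obtain ⟨c, A₀, B₀, hc, hAB₀⟩ := bezout (sepR QA j P) (sepR QA j E) hfg
  obtain ⟨A, hA⟩ : ∃ A, A = (sepR QA j).symm A₀ := ⟨_, rfl⟩
  obtain ⟨B, hB⟩ : ∃ B, B = (sepR QA j).symm B₀ := ⟨_, rfl⟩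
  have hAB : A * P + B * E = rename Subtype.val c := by
    have h1 := congrArg (sepR QA j).symm hAB₀
    rw [map_add, map_mul, map_mul, AlgEquiv.symm_apply_apply, AlgEquiv.symm_apply_apply,
      sepR_symm_C] at h1
    rw [hA, hB]
    exact h1
  -- the number field
  have hex : ∀ z : ℂ, ∃ c : QA, IsAlgebraic ℚ z → rA c = z := by
    intro z
    by_cases h : IsAlgebraic ℚ z
    · exact ⟨⟨z, mem_QA.2 h⟩, fun _ => rfl⟩
    · exact ⟨0, fun h' => absurd h' h⟩
  choose cc hcc using hex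
  obtain ⟨T, hT⟩ : ∃ T : Finset QA, T = P.coeffs ∪ E₁.coeffs ∪ A.coeffs ∪ B.coeffs ∪ c.coeffs ∪
    Γ.image cc ∪ (Finset.univ.biUnion fun i => (f i).coeffs ∪ (g i).coeffs) := ⟨_, rfl⟩
  obtain ⟨L, hL⟩ : ∃ L : IntermediateField ℚ QA, L = IntermediateField.adjoin ℚ (T : Set QA) :=
    ⟨_, rfl⟩
  have hfin : FiniteDimensional ℚ L := by
    rw [hL]
    refine IntermediateField.finiteDimensional_adjoin fun x _ => ?_
    exact ((algebraicClosure.isAlgebraic ℚ ℂ).isAlgebraic x).isIntegral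
  have hnf : NumberField L := ⟨⟩
  have hTL : ∀ x ∈ T, x ∈ L := fun x hx => by
    rw [hL]
    exact IntermediateField.subset_adjoin _ _ hx
  obtain ⟨P', hP'⟩ := lift_field L P fun x hx => hTL x (by
    rw [hT]
    simp only [Finset.mem_union]
    tauto)
  obtain ⟨E₁', hE₁'⟩ := lift_field L E₁ fun x hx => hTL x (by
    rw [hT]
    simp only [Finset.mem_union]
    tauto)
  obtain ⟨A', hA'⟩ := lift_field L A fun x hx => hTL x (by
    rw [hT]
    simp only [Finset.mem_union]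
    tauto)
  obtain ⟨B', hB'⟩ := lift_field L B fun x hx => hTL x (by
    rw [hT]
    simp only [Finset.mem_union]
    tauto)
  obtain ⟨c', hc'⟩ := lift_field L c fun x hx => hTL x (by
    rw [hT]
    simp only [Finset.mem_union]
    tauto)
  choose f' hf' using fun i => lift_field L (f i) fun x hx => hTL x (by
    rw [hT]
    simp only [Finset.mem_union, Finset.mem_biUnion]
    exact Or.inr ⟨i, Finset.mem_univ i, Or.inl hx⟩)
  choose g' hg' using fun i => lift_field L (g i) fun x hx => hTL x (by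
    rw [hT]
    simp only [Finset.mem_union, Finset.mem_biUnion]
    exact Or.inr ⟨i, Finset.mem_univ i, Or.inr hx⟩)
  have hΓL : ∀ γ ∈ Γ, cc γ ∈ L := fun γ hγ => hTL _ (by
    rw [hT]
    simp only [Finset.mem_union, Finset.mem_image]
    exact Or.inl (Or.inr ⟨γ, hγ, rfl⟩))
  have hinjL : Function.Injective (algebraMap L QA) := (algebraMap L QA).injective
  have hP'0 : P' ≠ 0 := by
    rintro rfl
    rw [map_zero] at hP'
    exact hP0 hP'.symm
  have hc'0 : c' ≠ 0 := by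
    rintro rfl
    rw [map_zero] at hc'
    exact hc hc'.symm
  have hAB' : A' * P' + B' * (E₁' * (∏ i, f' i) * ∏ i, g' i) = rename Subtype.val c' := by
    apply MvPolynomial.map_injective _ hinjL
    rw [MvPolynomial.map_rename, hc', ← hAB, map_add, map_mul, map_mul, map_mul, map_mul, map_prod,
      map_prod, hA', hP', hB', hE₁']
    simp only [hf', hg', E]
  -- the norms
  obtain ⟨b₁, PO, hb₁, hPO⟩ := clear L P'
  obtain ⟨b₂, cO, hb₂, hcO⟩ := clear L c'
  have hb₁' : algebraMap (𝓞 L) L b₁ ≠ 0 := by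
    rw [Ne, FaithfulSMul.algebraMap_eq_zero_iff]
    exact hb₁
  have hb₂' : algebraMap (𝓞 L) L b₂ ≠ 0 := by
    rw [Ne, FaithfulSMul.algebraMap_eq_zero_iff]
    exact hb₂
  have hinjO : Function.Injective (algebraMap (𝓞 L) L) :=
    FaithfulSMul.algebraMap_injective (𝓞 L) L
  obtain ⟨N, hN1, hN2⟩ := exists_norm L PO
  obtain ⟨Nc, hNc1, hNc2⟩ := exists_norm L cO
  have hPO0 : PO ≠ 0 := by
    rintro rfl
    rw [map_zero] at hPO
    rcases mul_eq_zero.1 hPO.symm with h | h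
    · exact hb₁' ((MvPolynomial.C_eq_zero).1 h)
    · exact hP'0 h
  have hcO0 : cO ≠ 0 := by
    rintro rfl
    rw [map_zero] at hcO
    rcases mul_eq_zero.1 hcO.symm with h | h
    · exact hb₂' ((MvPolynomial.C_eq_zero).1 h)
    · exact hc'0 h
  have hPOj : 0 < degreeOf j PO := by
    rw [← degreeOf_inj _ hinjO PO j, hPO]
    have h1 : degreeOf j P' = degreeOf j P := by
      rw [← hP', degreeOf_inj _ hinjL]
    have h2 : degreeOf j (MvPolynomial.C (algebraMap (𝓞 L) L b₁) * P') = degreeOf j P' := by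
      rw [MvPolynomial.degreeOf_eq_sup, MvPolynomial.degreeOf_eq_sup]
      congr 1
      ext m
      rw [MvPolynomial.mem_support_iff, MvPolynomial.mem_support_iff, MvPolynomial.coeff_C_mul,
        Ne, mul_eq_zero, not_or]
      exact ⟨fun h => h.2, fun h => ⟨hb₁', h⟩⟩
    rw [h2, h1]
    exact hj
  -- the finitely many places
  let S : Set (HeightOneSpectrum (𝓞 L)) :=
    {v | ∃ p : ℕ, p.Prime ∧ (p : 𝓞 L) ∈ v.asIdeal ∧ (p ≤ Q₁ ∨ (p : 𝓞 L) ∈ v.asIdeal ^ 2)} ∪
    {v | ∃ x ∈ P'.coeffs ∪ E₁'.coeffs ∪ A'.coeffs ∪ B'.coeffs ∪ c'.coeffs ∪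
      (Finset.univ.biUnion fun i => (f' i).coeffs ∪ (g' i).coeffs) ∪
      {(algebraMap (𝓞 L) L b₁)⁻¹} ∪ Γ.attach.image (fun γ => (⟨cc γ.1, hΓL γ.1 γ.2⟩ : L)),
      1 < v.valuation L x}
  have hSfin : S.Finite := (ram_fin L Q₁).union (supp_fin_finset L _)
  obtain ⟨D, hD⟩ := exists_bound L S hSfin
  refine ⟨j, N, Nc, D, norm_deg L PO hPO0 j hPOj N hN2, norm_ne L cO hcO0 Nc hNc2, ?_⟩
  rintro t ⟨p, hp, hDp, hpN, hpc⟩
  rw [hN1] at hpN
  rw [hNc1] at hpc
  obtain ⟨v, hpv, hPv⟩ := place_of_norm L _ p hp hpN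
  have hvS : v ∉ S := by
    intro hvS
    refine hD v hvS fun q hq hqv => ?_
    -- the residue characteristic is unique
    have hqp : q = p := by
      by_contra hne
      have hcop : IsCoprime (q : ℤ) (p : ℤ) :=
        Nat.isCoprime_iff_coprime.2 ((Nat.coprime_primes hq hp).2 hne)
      obtain ⟨x, y, hxy⟩ := hcop
      apply v.isPrime.ne_top
      rw [Ideal.eq_top_iff_one]
      have h4 := congrArg (Int.castRingHom (𝓞 L)) hxy
      rw [map_add, map_mul, map_mul, map_one, map_natCast, map_natCast] at h4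
      rw [← h4]
      exact Ideal.add_mem _ (Ideal.mul_mem_left _ _ hqv) (Ideal.mul_mem_left _ _ hpv)
    omega
  have hQp : Q₁ < p := by
    by_contra h
    exact hvS (Or.inl ⟨p, hp, hpv, Or.inl (not_lt.1 h)⟩)
  have hpv2 : (p : 𝓞 L) ∉ v.asIdeal ^ 2 := fun h => hvS (Or.inl ⟨p, hp, hpv, Or.inr h⟩)
  have hint : ∀ x ∈ P'.coeffs ∪ E₁'.coeffs ∪ A'.coeffs ∪ B'.coeffs ∪ c'.coeffs ∪
      (Finset.univ.biUnion fun i => (f' i).coeffs ∪ (g' i).coeffs) ∪
      {(algebraMap (𝓞 L) L b₁)⁻¹} ∪ Γ.attach.image (fun γ => (⟨cc γ.1, hΓL γ.1 γ.2⟩ : L)),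
      v.valuation L x ≤ 1 := by
    intro x hx
    by_contra hcon
    exact hvS (Or.inr ⟨x, hx, not_le.1 hcon⟩)
  let s : Fin r → L := fun l => (t l : L)
  have hsv : ∀ l, v.valuation L (s l) ≤ 1 := by
    intro l
    have h1 : s l = algebraMap (𝓞 L) L (t l : 𝓞 L) := by simp [s]
    rw [h1]
    exact v.valuation_le_one _
  have hvals : ∀ q : MvPolynomial (Fin r) L, (∀ x ∈ q.coeffs, v.valuation L x ≤ 1) →
      v.valuation L (eval s q) ≤ 1 := fun q hq => val_eval_le v q hq hsv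
  have hvP1 := hvals P' fun x hx => hint x (by simp only [Finset.mem_union]; tauto)
  have hvE := hvals E₁' fun x hx => hint x (by simp only [Finset.mem_union]; tauto)
  have hvA := hvals A' fun x hx => hint x (by simp only [Finset.mem_union]; tauto)
  have hvB := hvals B' fun x hx => hint x (by simp only [Finset.mem_union]; tauto)
  have hvf : ∀ i, v.valuation L (eval s (f' i)) ≤ 1 := fun i => hvals (f' i) fun x hx =>
    hint x (by
      simp only [Finset.mem_union, Finset.mem_biUnion]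
      exact Or.inl (Or.inl (Or.inr ⟨i, Finset.mem_univ i, Or.inl hx⟩)))
  have hvg : ∀ i, v.valuation L (eval s (g' i)) ≤ 1 := fun i => hvals (g' i) fun x hx =>
    hint x (by
      simp only [Finset.mem_union, Finset.mem_biUnion]
      exact Or.inl (Or.inl (Or.inr ⟨i, Finset.mem_univ i, Or.inr hx⟩)))
  have hb₁v : v.valuation L (algebraMap (𝓞 L) L b₁)⁻¹ ≤ 1 := hint _ (by
    simp only [Finset.mem_union, Finset.mem_singleton]
    tauto)
  have hOeval : ∀ {τ : Type} (q : MvPolynomial τ (𝓞 L)) (t' : τ → ℤ),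
      algebraMap (𝓞 L) L (eval (fun i => (t' i : 𝓞 L)) q) =
        eval (fun i => (t' i : L)) (MvPolynomial.map (algebraMap (𝓞 L) L) q) := by
    intro τ q t'
    rw [MvPolynomial.eval_map]
    have h := MvPolynomial.eval₂_comp_left (algebraMap (𝓞 L) L) (RingHom.id (𝓞 L))
      (fun i => (t' i : 𝓞 L)) q
    rw [RingHom.comp_id] at h
    refine h.trans ?_
    congr 1
  have hvP : v.valuation L (eval s P') < 1 := by
    have h1 : algebraMap (𝓞 L) L (eval (fun i => (t i : 𝓞 L)) PO) =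
        algebraMap (𝓞 L) L b₁ * eval s P' := by
      rw [hOeval, hPO, map_mul, MvPolynomial.eval_C]
    have h2 : v.valuation L (algebraMap (𝓞 L) L (eval (fun i => (t i : 𝓞 L)) PO)) < 1 :=
      (v.valuation_lt_one_iff_mem _).2 hPv
    have h3 : eval s P' = (algebraMap (𝓞 L) L b₁)⁻¹ *
        algebraMap (𝓞 L) L (eval (fun i => (t i : 𝓞 L)) PO) := by
      rw [h1, inv_mul_cancel_left₀ hb₁']
    rw [h3, map_mul]
    exact (mul_le_of_le_one_left' hb₁v).trans_lt h2
  -- the values of `E`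
  obtain ⟨z, hz⟩ : ∃ z : L, z = eval s (E₁' * (∏ i, f' i) * ∏ i, g' i) := ⟨_, rfl⟩
  have hzprod : z = eval s E₁' * (∏ i, eval s (f' i)) * ∏ i, eval s (g' i) := by
    rw [hz, map_mul, map_mul, map_prod, map_prod]
  have hpf : v.valuation L (∏ i, eval s (f' i)) ≤ 1 := by
    rw [map_prod]
    exact Finset.prod_le_one' fun i _ => hvf i
  have hpg : v.valuation L (∏ i, eval s (g' i)) ≤ 1 := by
    rw [map_prod]
    exact Finset.prod_le_one' fun i _ => hvg i
  have hz1 : v.valuation L z = 1 := by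
    refine le_antisymm ?_ ?_
    · rw [hzprod, map_mul, map_mul]
      exact mul_le_one' (mul_le_one' hvE hpf) hpg
    by_contra hcon
    rw [not_le] at hcon
    apply hpc
    refine dvd_norm L _ p hp v hpv ?_
    rw [← v.valuation_lt_one_iff_mem (K := L)]
    change v.valuation L (algebraMap (𝓞 L) L
      (eval (fun i : {i : Fin r // i ≠ j} => ((t i : ℤ) : 𝓞 L)) cO)) < 1
    rw [hOeval, hcO, map_mul, MvPolynomial.eval_C, map_mul]
    refine lt_of_le_of_lt (mul_le_of_le_one_left' (v.valuation_le_one _)) ?_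
    have h1 : eval (fun i : {i : Fin r // i ≠ j} => ((t i : ℤ) : L)) c' =
        eval s A' * eval s P' + eval s B' * z := by
      have h2 := congrArg (eval s) hAB'
      rw [map_add, map_mul, map_mul, ← hz, MvPolynomial.eval_rename] at h2
      exact h2.symm
    rw [h1]
    refine Valuation.map_add_lt _ ?_ ?_
    · rw [map_mul]
      exact (mul_le_of_le_one_left' hvA).trans_lt hvP
    · rw [map_mul]
      exact (mul_le_of_le_one_left' hvB).trans_lt hcon
  have hE1 : v.valuation L (eval s E₁') = 1 := by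
    refine le_antisymm hvE ?_
    rw [← hz1, hzprod, map_mul, map_mul]
    exact (mul_le_of_le_one_right' hpg).trans (mul_le_of_le_one_right' hpf)
  have hpf1 : v.valuation L (∏ i, eval s (f' i)) = 1 := by
    refine le_antisymm hpf ?_
    rw [← hz1, hzprod, map_mul, map_mul]
    exact (mul_le_of_le_one_right' hpg).trans (mul_le_of_le_one_left' hvE)
  have hpg1 : v.valuation L (∏ i, eval s (g' i)) = 1 := by
    refine le_antisymm hpg ?_
    rw [← hz1, hzprod, map_mul, map_mul]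
    exact mul_le_of_le_one_left' (mul_le_one' hvE hpf)
  have hone : ∀ h : Fin n → L, (∀ i, v.valuation L (h i) ≤ 1) → v.valuation L (∏ i, h i) = 1 →
      ∀ i, v.valuation L (h i) = 1 := by
    intro h h1 h2 i
    refine le_antisymm (h1 i) ?_
    rw [← h2, ← Finset.mul_prod_erase Finset.univ h (Finset.mem_univ i), map_mul]
    refine mul_le_of_le_one_right' ?_
    rw [map_prod]
    exact Finset.prod_le_one' fun i _ => h1 i
  have hf1 := hone (fun i => eval s (f' i)) hvf hpf1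
  have hg1 := hone (fun i => eval s (g' i)) hvg hpg1
  -- the embedding
  let σ : L →+* ℂ := rA.comp (algebraMap L QA)
  have hσs : (fun l => σ (s l)) = fun l => (t l : ℂ) := by
    funext l
    simp [s]
  have hmain := hcrit L σ v p hp hQp hpv hpv2 s hsv (eval s P') (eval s E₁')
    (fun i => eval s (f' i) / eval s (g' i)) (eval_emb P P' hP' s) hvP (eval_emb E₁ E₁' hE₁' s) hE1
    (fun i => ⟨by
      rw [map_div₀]
      congr 1
      · exact eval_emb (f i) (f' i) (hf' i) s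
      · exact eval_emb (g i) (g' i) (hg' i) s, by rw [map_div₀, hf1 i, hg1 i, div_one]⟩)
  rw [hσs] at hmain
  have hΓi : (Γ : Set ℂ) ⊆ intAt σ v := by
    intro γ hγ
    refine ⟨⟨cc γ, hΓL γ hγ⟩, ?_, hcc γ (hΓ γ hγ)⟩
    refine hint _ (Finset.mem_union_right _ (Finset.mem_image.2 ⟨⟨γ, hγ⟩, Finset.mem_attach _ _, rfl⟩))
  refine ⟨hmain.1.subset ?_, fun r Z hr => (hmain.2 r (svMono hΓi Z) hr).subset ?_⟩
  · rintro x ⟨hx, r, Z, hr, hZ⟩
    exact ⟨hx, r, svMono hΓi Z, hr, hZ⟩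
  · rintro x ⟨hx, hZ⟩
    exact ⟨hx, hZ⟩

/-- The number of the exceptional integral members. -/
theorem count_members (n r : ℕ) (κ : Type) [Finite κ] (d₀ : ℕ)
    (F : κ → MvPolynomial (Fin n × Bool) (MvPolynomial (Fin r) QA)) (t₀ : Fin r → ℂ)
    (P : MvPolynomial (Fin r) QA) (hP0 : P ≠ 0) (hP : ∀ f, eval₂Hom rA t₀ f = 0 ↔ P ∣ f)
    (hF : GM d₀ (eval₂Hom rA t₀) F) (f g : Fin n → MvPolynomial (Fin r) QA)
    (hf : ∀ i, eval₂Hom rA t₀ (f i) ≠ 0) (hg : ∀ i, eval₂Hom rA t₀ (g i) ≠ 0) (w : Fin n → ℕ)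
    (hw : ∀ i, 0 < w i) (Γ : Finset ℂ) (hΓ : ∀ γ ∈ Γ, IsAlgebraic ℚ γ) (ε : ℝ) (hε : 0 < ε) :
    ∃ C : ℝ, 0 < C ∧ ∀ H : ℕ, 1 ≤ H → (({t : Fin r → ℤ | (∀ j, |t j| ≤ H) ∧
      ¬ ZPC (Γ : Set ℂ) (memH F f g P w (fun l => (t l : ℂ)))}.ncard : ℕ) : ℝ) ≤
        C * (H : ℝ) ^ ((r : ℝ) - 1 + ε) := by
  classical
  obtain ⟨j, N, c, Q, hj, hc, h⟩ := integral_members n r κ d₀ F t₀ P hP0 hP hF f g hf hg w hw Γ hΓ
  obtain ⟨C, hC, hcount⟩ := card_core N j hj c hc Q ε hε
  refine ⟨C, hC, fun H hH => ?_⟩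
  refine le_trans ?_ (hcount H hH)
  rw [Nat.cast_le, ← Set.ncard_coe_finset]
  refine Set.ncard_le_ncard ?_ (Finset.finite_toSet _)
  rintro t ⟨ht, hbad⟩
  rw [Finset.mem_coe, Finset.mem_filter]
  refine ⟨mem_box.2 ht, fun p hp hQp hpN => ?_⟩
  by_contra hcon
  exact hbad (h t ⟨p, hp, hQp, hpN, hcon⟩)

end Pool.Agent.Q170.FP
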