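import Pool.Agent.Y92.ZX.Rtl
import Pool.Agent.Q170.FP.Ext

/-!
The lemma of Gauss at a place of the algebraic numbers, and reduction of polynomials which vanish at a
generic point of a hypersurface (helper file).
-/

set_option autoImplicit false
set_option linter.unusedSectionVars false

namespace Pool.Agent.Q170.FP

open Pool.Agent.Y226 Pool.Agent.Y226.ZG Pool.Agent.Y226.ZM Pool.Agent.Y226.ZU Pool.Agent.Y92.ZX

/-- lifting a polynomial to a subring -/
theorem lift_sub {K σ : Type} [Field K] (R : Subring K) (f : MvPolynomial σ K)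
    (hf : ∀ m, f.coeff m ∈ R) : ∃ f₀ : MvPolynomial σ R, MvPolynomial.map R.subtype f₀ = f :=
  Pool.Agent.Y948.ZX.exists_mvlift f hf

/-- The lemma of Gauss. -/
theorem gauss_nr {C : Type} [NormedField C] [IsUltrametricDist C] {k : Type} [Field k]
    (red : OO C →+* k) (hker : ∀ x : OO C, red x = 0 ↔ ‖(x : C)‖ < 1) (φ : QA →+* C) {r : ℕ}
    (P g : MvPolynomial (Fin r) QA) (hP : ∀ m, ‖φ (P.coeff m)‖ ≤ 1)
    (hP1 : ∃ m, ‖φ (P.coeff m)‖ = 1) (hf : ∀ m, ‖φ ((P * g).coeff m)‖ ≤ 1) :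
    ∀ m, ‖φ (g.coeff m)‖ ≤ 1 := by
  classical
  by_contra hcon
  push Not at hcon
  obtain ⟨m₁, hm₁⟩ := hcon
  have hm₁s : m₁ ∈ g.support := by
    rw [MvPolynomial.mem_support_iff]
    intro h0
    rw [h0, map_zero, norm_zero] at hm₁
    linarith
  obtain ⟨m₀, hm₀s, hm₀⟩ := Finset.exists_max_image g.support (fun m => ‖φ (g.coeff m)‖) ⟨m₁, hm₁s⟩
  have ha1 : 1 < ‖φ (g.coeff m₀)‖ := hm₁.trans_le (hm₀ m₁ hm₁s)
  set a := g.coeff m₀ with ha
  have ha0 : a ≠ 0 := MvPolynomial.mem_support_iff.1 hm₀s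
  have hinv : ‖φ a⁻¹‖ < 1 := by
    rw [map_inv₀, norm_inv]
    exact inv_lt_one_of_one_lt₀ ha1
  have hall : ∀ m, ‖φ (g.coeff m)‖ ≤ ‖φ a‖ := by
    intro m
    by_cases hm : m ∈ g.support
    · exact hm₀ m hm
    · rw [MvPolynomial.notMem_support_iff.1 hm, map_zero, norm_zero]
      exact norm_nonneg _
  let R : Subring QA := (OO C).comap φ
  have hR : ∀ x : QA, x ∈ R ↔ ‖φ x‖ ≤ 1 := fun x => Iff.rfl
  let g' : MvPolynomial (Fin r) QA := MvPolynomial.C a⁻¹ * g
  have hg' : ∀ m, g'.coeff m = a⁻¹ * g.coeff m := fun m => MvPolynomial.coeff_C_mul _ _ _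
  have hg'R : ∀ m, g'.coeff m ∈ R := by
    intro m
    rw [hR, hg', map_mul, norm_mul, map_inv₀, norm_inv]
    rw [inv_mul_le_iff₀ (by linarith), mul_one]
    exact hall m
  obtain ⟨P₀, hP₀⟩ := lift_sub R P hP
  obtain ⟨g₀, hg₀⟩ := lift_sub R g' hg'R
  let ψ : R →+* k := red.comp ((φ.comp R.subtype).codRestrict (OO C) fun x => x.2)
  have hψ : ∀ x : R, ψ x = 0 ↔ ‖φ (x : QA)‖ < 1 := fun x => hker _
  have hPg : MvPolynomial.map ψ (P₀ * g₀) = 0 := by
    ext m
    rw [MvPolynomial.coeff_map, MvPolynomial.coeff_zero, hψ]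
    have h1 : (((P₀ * g₀).coeff m : R) : QA) = (P * g').coeff m := by
      rw [← hP₀, ← hg₀, ← map_mul, MvPolynomial.coeff_map]
      rfl
    rw [h1]
    have h2 : P * g' = MvPolynomial.C a⁻¹ * (P * g) := by
      simp only [g']
      ring
    rw [h2, MvPolynomial.coeff_C_mul, map_mul, norm_mul]
    exact (mul_le_of_le_one_right (norm_nonneg _) (hf m)).trans_lt hinv
  rw [map_mul, mul_eq_zero] at hPg
  rcases hPg with h | h
  · obtain ⟨m, hm⟩ := hP1
    have h1 := congrArg (MvPolynomial.coeff m) h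
    rw [MvPolynomial.coeff_map, MvPolynomial.coeff_zero, hψ] at h1
    have h2 : ((P₀.coeff m : R) : QA) = P.coeff m := by
      rw [← hP₀, MvPolynomial.coeff_map]
      rfl
    rw [h2, hm] at h1
    exact lt_irrefl _ h1
  · have h1 := congrArg (MvPolynomial.coeff m₀) h
    rw [MvPolynomial.coeff_map, MvPolynomial.coeff_zero, hψ] at h1
    have h2 : ((g₀.coeff m₀ : R) : QA) = 1 := by
      have h3 : ((g₀.coeff m₀ : R) : QA) = g'.coeff m₀ := by
        rw [← hg₀, MvPolynomial.coeff_map]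
        rfl
      rw [h3, hg', ← ha, inv_mul_cancel₀ ha0]
    rw [h2, map_one, norm_one] at h1
    exact lt_irrefl _ h1

/-- values of integral polynomials at integral points -/
theorem norm_eval_le {C : Type} [NormedField C] [IsUltrametricDist C] (φ : QA →+* C) {r : ℕ}
    (g : MvPolynomial (Fin r) QA) (hg : ∀ m, ‖φ (g.coeff m)‖ ≤ 1) (s : Fin r → QA)
    (hs : ∀ l, ‖φ (s l)‖ ≤ 1) : ‖φ (MvPolynomial.eval s g)‖ ≤ 1 := by
  classical
  let R : Subring QA := (OO C).comap φ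
  obtain ⟨g₀, hg₀⟩ := lift_sub R g hg
  have h1 : MvPolynomial.eval s g = ((MvPolynomial.eval (fun l => (⟨s l, hs l⟩ : R)) g₀ : R) : QA) := by
    rw [← hg₀, MvPolynomial.eval_map]
    have h2 := MvPolynomial.eval₂_comp_left R.subtype (RingHom.id R) (fun l => (⟨s l, hs l⟩ : R)) g₀
    rw [RingHom.comp_id] at h2
    exact h2.symm
  rw [h1]
  exact (MvPolynomial.eval (fun l => (⟨s l, hs l⟩ : R)) g₀).2

end Pool.Agent.Q170.FP
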