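import Pool.Agent.Q170.FP.Loc

/-!
Curves which are near the member of a family at a complex generic point of a hypersurface
(helper file).
-/

set_option autoImplicit false
set_option linter.unusedSectionVars false

open UpperHalfPlane H294ZP Polynomial IsDedekindDomain NumberField

namespace Pool.Agent.Q170.FP

open Pool.Agent.Y226 Pool.Agent.Y226.ZG Pool.Agent.Y226.ZM Pool.Agent.Y226.ZU Pool.Agent.Y92.ZX

/-- descent of curves in general position to subfields -/
theorem GM_descent {A k K : Type} [CommRing A] [Field k] [Field K] {n d₀ : ℕ} {κ : Type} [Finite κ]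
    (π : A →+* k) (i : k →+* K) (F : κ → MvPolynomial (Fin n × Bool) A)
    (h : GM d₀ (i.comp π) F) : GM d₀ π F := by
  have hmap : ∀ (a : Option (Fin n)) (t : κ), MvPolynomial.map i
      (MvPolynomial.eval₂ (MvPolynomial.C.comp π) (chv a MvPolynomial.X) (F t)) =
      MvPolynomial.eval₂ (MvPolynomial.C.comp (i.comp π)) (chv a MvPolynomial.X) (F t) := by
    intro a t
    have h1 := chart_map π (i.comp π) (RingHom.id A) i (RingHom.comp_id _) a (F t)
    rw [MvPolynomial.map_id] at h1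
    exact h1
  have hmem : ∀ (a : Option (Fin n)) (f : MvPolynomial (Fin n) k),
      MvPolynomial.map i f ∈ chI (i.comp π) F a ↔ f ∈ chI π F a := by
    intro a f
    constructor
    · intro hf
      refine contr i _ f ?_
      have h1 : (fun t => MvPolynomial.map i
          (MvPolynomial.eval₂ (MvPolynomial.C.comp π) (chv a MvPolynomial.X) (F t))) =
          fun t => MvPolynomial.eval₂ (MvPolynomial.C.comp (i.comp π)) (chv a MvPolynomial.X)
            (F t) := funext fun t => hmap a t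
      rw [h1]
      exact hf
    · intro hf
      have h1 := Ideal.mem_map_of_mem (MvPolynomial.map i) hf
      unfold chI at h1 ⊢
      rw [Ideal.map_span, ← Set.range_comp] at h1
      have h2 : ((MvPolynomial.map i : MvPolynomial (Fin n) k →+* MvPolynomial (Fin n) K) ∘
          fun t => MvPolynomial.eval₂ (MvPolynomial.C.comp π) (chv a MvPolynomial.X) (F t)) =
          fun t => MvPolynomial.eval₂ (MvPolynomial.C.comp (i.comp π)) (chv a MvPolynomial.X)
            (F t) := funext fun t => hmap a t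
      rw [h2] at h1
      exact h1
  refine ⟨h.hom, fun a => ?_, fun j c hc => ?_, fun j l hjl => ?_⟩
  · have h1 : chI π F a = (chI (i.comp π) F a).comap (MvPolynomial.map i) := by
      ext f
      rw [Ideal.mem_comap, hmem]
    rw [h1]
    have := h.prime a
    exact Ideal.IsPrime.comap _
  · rw [← hmem, map_sub, MvPolynomial.map_X, MvPolynomial.map_C] at hc
    exact h.const j (i c) hc
  · obtain ⟨a, b, g, ha, hb, h1, h2, h3, h4, h5, h6⟩ := h.gen j l hjl
    refine ⟨a, b, g, ha, hb, fun h0 => h1 (by rw [RingHom.comp_apply, h0, map_zero]),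
      fun h0 => h2 (by rw [RingHom.comp_apply, h0, map_zero]),
      fun h0 => h3 (by rw [RingHom.comp_apply, h0, map_zero]),
      fun h0 => h4 (by rw [RingHom.comp_apply, h0, map_zero]), fun c => ?_, h6⟩
    obtain ⟨v, hv, hne⟩ := h5 (i c)
    refine ⟨v, hv, fun h0 => hne ?_⟩
    have h7 := congrArg i h0
    rw [map_sum, map_zero] at h7
    rw [← h7]
    exact Finset.sum_congr rfl fun u _ => by rw [map_mul, map_pow]; rfl

open scoped IntermediateField.algebraAdjoinAdjoin in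
/-- the field of the numbers algebraic over the field generated by a point -/
theorem exists_field {r : ℕ} (t₀ : Fin r → ℂ) : ∃ (𝒦 : Type) (_ : Field 𝒦) (_ : IsAlgClosed 𝒦)
    (_ : CharZero 𝒦) (i : 𝒦 →+* ℂ) (π : MvPolynomial (Fin r) QA →+* 𝒦),
    i.comp π = MvPolynomial.eval₂Hom rA t₀ ∧
    ∀ x : 𝒦, ∃ E, π E ≠ 0 ∧ π.IsIntegralElem (π E * x) := by
  classical
  let k₁ : IntermediateField QA ℂ := IntermediateField.adjoin QA (Set.range t₀)
  let A : Subalgebra QA ℂ := Algebra.adjoin QA (Set.range t₀)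
  have hAk : ∀ x ∈ A, x ∈ k₁ := fun x hx =>
    (IntermediateField.algebra_adjoin_le_adjoin QA (Set.range t₀)) hx
  have hA : A = (MvPolynomial.aeval t₀ : MvPolynomial (Fin r) QA →ₐ[QA] ℂ).range :=
    Algebra.adjoin_range_eq_range_aeval QA t₀
  let 𝒦 := algebraicClosure k₁ ℂ
  have hcl : IsAlgClosed 𝒦 := IsAlgClosure.isAlgClosed k₁
  have hmem : ∀ f : MvPolynomial (Fin r) QA, MvPolynomial.eval₂Hom rA t₀ f ∈ 𝒦 := by
    intro f
    have h1 : MvPolynomial.eval₂Hom rA t₀ f ∈ k₁ := by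
      apply hAk
      rw [hA]
      exact ⟨f, rfl⟩
    exact 𝒦.algebraMap_mem (⟨_, h1⟩ : k₁)
  let π : MvPolynomial (Fin r) QA →+* 𝒦 :=
    (MvPolynomial.eval₂Hom rA t₀).codRestrict 𝒦 hmem
  refine ⟨𝒦, inferInstance, hcl, inferInstance, algebraMap 𝒦 ℂ, π, RingHom.ext fun f => rfl, ?_⟩
  intro x
  -- `x` is algebraic over `A`
  have hx : IsAlgebraic k₁ (x : ℂ) := mem_algebraicClosure_iff.1 x.2
  have hx2 : IsAlgebraic A (x : ℂ) := (IsFractionRing.isAlgebraic_iff A k₁ ℂ).2 hx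
  obtain ⟨y, hy0, hy⟩ := hx2.exists_integral_multiple
  have hyA : (y : ℂ) ∈ (MvPolynomial.aeval t₀ : MvPolynomial (Fin r) QA →ₐ[QA] ℂ).range := by
    rw [← hA]
    exact y.2
  obtain ⟨E, hE⟩ := hyA
  have hπE : ((π E : 𝒦) : ℂ) = y := hE
  refine ⟨E, ?_, ?_⟩
  · intro h0
    apply hy0
    apply Subtype.ext
    rw [← hπE, h0]
    rfl
  · obtain ⟨q, hq, hq0⟩ := hy
    -- lift the equation
    let πA : MvPolynomial (Fin r) QA →+* A :=
      (MvPolynomial.aeval t₀ : MvPolynomial (Fin r) QA →ₐ[QA] ℂ).toRingHom.codRestrict A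
        fun f => by
          show MvPolynomial.aeval t₀ f ∈ A
          rw [hA]
          exact ⟨f, rfl⟩
    have hsurj : Function.Surjective πA := by
      intro z
      have h1 : (z : ℂ) ∈ (MvPolynomial.aeval t₀ : MvPolynomial (Fin r) QA →ₐ[QA] ℂ).range := by
        rw [← hA]
        exact z.2
      obtain ⟨f, hf⟩ := h1
      exact ⟨f, Subtype.ext hf⟩
    have h3 : q ∈ Polynomial.lifts πA := by
      rw [Polynomial.lifts_iff_coeff_lifts]
      intro j
      exact hsurj _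
    obtain ⟨q₀, h4, -, h5⟩ := Polynomial.lifts_and_natDegree_eq_and_monic h3 hq
    refine ⟨q₀, h5, ?_⟩
    apply Subtype.ext
    have h6 := Polynomial.hom_eval₂ q₀ π (algebraMap 𝒦 ℂ) (π E * x)
    refine h6.trans ?_
    rw [← h4, Polynomial.eval₂_map] at hq0
    have h7 : (algebraMap A ℂ).comp πA = (algebraMap 𝒦 ℂ).comp π := RingHom.ext fun f => rfl
    rw [h7] at hq0
    have h8 : algebraMap 𝒦 ℂ (π E * x) = y • (x : ℂ) := by
      rw [map_mul, Algebra.smul_def]
      congr 1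
    rw [h8]
    exact hq0

/-- The local theorem for a complex generic point of a hypersurface. -/
theorem loc_gen (n r W : ℕ) (κ : Type) [Finite κ] (d₀ : ℕ)
    (F : κ → MvPolynomial (Fin n × Bool) (MvPolynomial (Fin r) QA)) (t₀ : Fin r → ℂ)
    (P : MvPolynomial (Fin r) QA) (hP0 : P ≠ 0)
    (hP : ∀ f, MvPolynomial.eval₂Hom rA t₀ f = 0 → P ∣ f)
    (hF : GM d₀ (MvPolynomial.eval₂Hom rA t₀) F) :
    ∃ (Q : ℕ) (E : MvPolynomial (Fin r) QA), MvPolynomial.eval₂Hom rA t₀ E ≠ 0 ∧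
    ∀ (K : Type) [Field K] [NumberField K]
    (σ : K →+* ℂ) (v : HeightOneSpectrum (𝓞 K)) (p : ℕ), p.Prime → Q < p → (p : 𝓞 K) ∈ v.asIdeal →
    (p : 𝓞 K) ∉ v.asIdeal ^ 2 → ∀ s : Fin r → K, (∀ l, v.valuation K (s l) ≤ 1) →
    (∃ x : K, v.valuation K x < 1 ∧ σ x = MvPolynomial.eval₂ rA (fun l => σ (s l)) P) →
    (∃ x : K, v.valuation K x = 1 ∧ σ x = MvPolynomial.eval₂ rA (fun l => σ (s l)) E) →
    ∀ (lam : Fin n → K) (e : ℕ) (w : Fin n → ℕ), 0 < e →
    (∀ i, 0 < w i ∧ w i ≤ W ∧ v.valuation K (lam i) = WithZero.exp ((w i * e : ℕ) : ℤ)) →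
    {x : Fin n → ℂ | (∃ y ∈ VS F (fun l => σ (s l)), ∀ i, x i = σ (lam i) * y i) ∧
      ∃ (r : ℕ) (Z : SV (intAt σ v) n r), r + 2 ≤ n ∧ x ∈ Z.locus}.Finite ∧
    ∀ (r : ℕ) (Z : SV (intAt σ v) n r), r < n →
      {x : Fin n → ℂ | (∃ y ∈ VS F (fun l => σ (s l)), ∀ i, x i = σ (lam i) * y i) ∧
        x ∈ Z.locus}.Finite := by
  obtain ⟨𝒦, _, _, _, i, π, hiπ, halg⟩ := exists_field t₀
  have hval : ∀ f, i (π f) = MvPolynomial.eval₂Hom rA t₀ f := fun f => by
    rw [← hiπ]
    rfl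
  obtain ⟨Q, E, hE, h⟩ := loc_fam n r W κ d₀ F 𝒦 π halg P hP0
    (fun f hf => hP f (by rw [← hval, hf, map_zero])) (GM_descent π i F (by rw [hiπ]; exact hF))
  refine ⟨Q, E, ?_, h⟩
  rw [← hval]
  exact (map_ne_zero i).2 hE

end Pool.Agent.Q170.FP
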