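import Pool.Agent.Q170.FP.Dat

/-!
Curves which are near a generic member of a family over a hypersurface (helper file, generalises
`Pool.Agent.Y92.ZX.main_fam`).
-/

set_option autoImplicit false
set_option linter.unusedSectionVars false

open UpperHalfPlane H294ZP Polynomial IsDedekindDomain NumberField

namespace Pool.Agent.Q170.FP

open Pool.Agent.Y226 Pool.Agent.Y226.ZG Pool.Agent.Y226.ZM Pool.Agent.Y226.ZU Pool.Agent.Y92.ZX

/-- a common denominator of finitely many elements -/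
theorem common_den {A 𝒦 : Type} [CommRing A] [Field 𝒦] (π : A →+* 𝒦)
    (halg : ∀ x : 𝒦, ∃ E, π E ≠ 0 ∧ π.IsIntegralElem (π E * x)) (S : Finset 𝒦) :
    ∃ E, π E ≠ 0 ∧ ∀ x ∈ S, π.IsIntegralElem (π E * x) := by
  classical
  induction S using Finset.induction_on with
  | empty => exact ⟨1, by rw [map_one]; exact one_ne_zero, fun x hx => absurd hx (by simp)⟩
  | insert x S hx ih =>
    obtain ⟨E, hE, h1⟩ := ih
    obtain ⟨E', hE', h2⟩ := halg x
    refine ⟨E * E', by rw [map_mul]; exact mul_ne_zero hE hE', fun y hy => ?_⟩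
    rcases Finset.mem_insert.1 hy with rfl | hy
    · rw [map_mul, mul_assoc]
      exact (π.isIntegralElem_map).mul π h2
    · rw [map_mul, mul_comm (π E), mul_assoc]
      exact (π.isIntegralElem_map).mul π (h1 y hy)

/-- The local theorem. -/
theorem loc_fam (n r W : ℕ) (κ : Type) [Finite κ] (d₀ : ℕ)
    (F : κ → MvPolynomial (Fin n × Bool) (MvPolynomial (Fin r) QA)) (𝒦 : Type) [Field 𝒦]
    [IsAlgClosed 𝒦] [CharZero 𝒦] (π : MvPolynomial (Fin r) QA →+* 𝒦)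
    (halg : ∀ x : 𝒦, ∃ E, π E ≠ 0 ∧ π.IsIntegralElem (π E * x))
    (P : MvPolynomial (Fin r) QA) (hP0 : P ≠ 0) (hP : ∀ f, π f = 0 → P ∣ f) (hF : GM d₀ π F) :
    ∃ (Q : ℕ) (E : MvPolynomial (Fin r) QA), π E ≠ 0 ∧ ∀ (K : Type) [Field K] [NumberField K]
    (σ : K →+* ℂ) (v : HeightOneSpectrum (𝓞 K)) (p : ℕ), p.Prime → Q < p → (p : 𝓞 K) ∈ v.asIdeal →
    (p : 𝓞 K) ∉ v.asIdeal ^ 2 → ∀ s : Fin r → K, (∀ l, v.valuation K (s l) ≤ 1) →
    (∃ x : K, v.valuation K x < 1 ∧ σ x = MvPolynomial.eval₂ rA (fun l => σ (s l)) P) →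
    (∃ x : K, v.valuation K x = 1 ∧ σ x = MvPolynomial.eval₂ rA (fun l => σ (s l)) E) →
    ∀ (lam : Fin n → K) (e : ℕ) (w : Fin n → ℕ), 0 < e →
    (∀ i, 0 < w i ∧ w i ≤ W ∧ v.valuation K (lam i) = WithZero.exp ((w i * e : ℕ) : ℤ)) →
    {x : Fin n → ℂ | (∃ y ∈ VS F (fun l => σ (s l)), ∀ i, x i = σ (lam i) * y i) ∧
      ∃ (r : ℕ) (Z : SV (intAt σ v) n r), r + 2 ≤ n ∧ x ∈ Z.locus}.Finite ∧
    ∀ (r : ℕ) (Z : SV (intAt σ v) n r), r < n →
      {x : Fin n → ℂ | (∃ y ∈ VS F (fun l => σ (s l)), ∀ i, x i = σ (lam i) * y i) ∧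
        x ∈ Z.locus}.Finite := by
  classical
  obtain ⟨N, M, d, D, B₀, S₀, S₁, hN, hM, hS⟩ := datG W F π hF
  obtain ⟨E, hE, hES⟩ := common_den π halg S₁
  choose! q hq hq0 using hES
  choose Dn hDn using nr_large
  -- the algebraic numbers which have to be integral
  obtain ⟨m₀, hm₀⟩ : ∃ m, P.coeff m ≠ 0 := by
    by_contra hcon
    push Not at hcon
    exact hP0 (MvPolynomial.ext _ _ fun m => by rw [hcon m, MvPolynomial.coeff_zero])
  let T : Finset QA := S₀ ∪ P.support.image P.coeff ∪ {(P.coeff m₀)⁻¹} ∪ E.support.image E.coeff ∪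
    S₁.biUnion fun x => (q x).support.biUnion fun j =>
      ((q x).coeff j).support.image ((q x).coeff j).coeff
  set B := B₀ + N + M + d + D + 1 with hBdef
  refine ⟨16 * B ^ 2 * B ^ 2 + (16 * B ^ 2 + 2) + (B + 2) + W + 2 * B ^ 2 +
    (B * (B + 1) + 1) + (B ^ 2 + 1) + T.sup Dn, E, hE, ?_⟩
  intro K _ _ σ v p hp hDp hpv hpv2 s hs hsP hsE lam e w he hw
  haveI hpf : Fact p.Prime := ⟨hp⟩
  obtain ⟨C, _, _, _, _, _, k, _, _, _, red, 𝕜, _, _, _, ρ, ι, φ, σ', hσ', hp0, hp1, hker, hρs,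
    hι, hNr, hv1, hval⟩ := Y61.ZX.nf p K σ v hpv hpv2
  have hρ0 : ∀ r : Nr C p, ρ r = 0 ↔ ‖(r : C)‖ < 1 := by
    intro r
    rw [← map_eq_zero ι, hι, hker]
  -- the ring of coefficients
  let R₀ : Subring QA := (Nr C p).comap φ
  have hRT : ∀ x ∈ T, x ∈ R₀ := by
    intro x hx
    have h1 : Dn x ≤ T.sup Dn := Finset.le_sup hx
    exact hDn x p (by omega) C φ hp1
  have hRS : ∀ x ∈ S₀, x ∈ R₀ := fun x hx => hRT x (by simp [T, hx])
  have hcoef : ∀ (f : MvPolynomial (Fin r) QA), (∀ x ∈ f.support.image f.coeff, x ∈ T) →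
      ∀ m, f.coeff m ∈ R₀ := by
    intro f hf m
    by_cases hm : m ∈ f.support
    · exact hRT _ (hf _ (Finset.mem_image_of_mem _ hm))
    · rw [MvPolynomial.notMem_support_iff.1 hm]
      exact zero_mem _
  have hRP : ∀ m, P.coeff m ∈ R₀ := hcoef P fun x hx => by
    simp only [T, Finset.mem_union]
    tauto
  have hRE : ∀ m, E.coeff m ∈ R₀ := hcoef E fun x hx => by
    simp only [T, Finset.mem_union]
    tauto
  have hRq : ∀ x ∈ S₁, ∀ j m, ((q x).coeff j).coeff m ∈ R₀ := by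
    intro x hx j
    by_cases hj : j ∈ (q x).support
    · refine hcoef _ fun y hy => ?_
      simp only [T, Finset.mem_union, Finset.mem_biUnion]
      exact Or.inr ⟨x, hx, j, hj, hy⟩
    · intro m
      rw [notMem_support_iff.1 hj, MvPolynomial.coeff_zero]
      exact zero_mem _
  have hm₀R : (P.coeff m₀)⁻¹ ∈ R₀ := hRT _ (by simp [T])
  obtain ⟨FR, hFR, hHom, hdat0⟩ := hS R₀ hRS
  let φR : R₀ →+* Nr C p := (φ.comp R₀.subtype).codRestrict (Nr C p) fun x => x.2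
  let sN : Fin r → Nr C p := fun l => ⟨φ (σ' (s l)), hNr _ (hs l)⟩
  let sQ : Fin r → QA := fun l => σ' (s l)
  let θ : MvPolynomial (Fin r) R₀ →+* Nr C p := MvPolynomial.eval₂Hom φR sN
  let θQ : MvPolynomial (Fin r) R₀ →+* QA := MvPolynomial.eval₂Hom R₀.subtype sQ
  have hθφ : (Nr C p).subtype.comp θ = φ.comp θQ := by
    refine MvPolynomial.ringHom_ext ?_ ?_
    · intro r
      simp only [θ, θQ, RingHom.comp_apply, MvPolynomial.eval₂Hom_C]
      rfl
    · intro l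
      simp only [θ, θQ, RingHom.comp_apply, MvPolynomial.eval₂Hom_X']
      rfl
  have hθφ' : ∀ x, ((θ x : Nr C p) : C) = φ (θQ x) := fun x => congrArg (fun f => f x) hθφ
  have hθQ : ∀ x, θQ x = MvPolynomial.eval sQ (MvPolynomial.map R₀.subtype x) := by
    intro x
    rw [MvPolynomial.eval_map]
    rfl
  have hrAσ : ∀ f : MvPolynomial (Fin r) QA,
      rA (MvPolynomial.eval sQ f) = MvPolynomial.eval₂ rA (fun l => σ (s l)) f := by
    intro f
    have h2 := MvPolynomial.eval₂_comp_left rA (RingHom.id QA) sQ f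
    rw [RingHom.comp_id] at h2
    refine h2.trans ?_
    congr 1
    funext l
    exact hσ' (s l)
  have hrAinj : Function.Injective rA := rA.injective
  -- the valuation and the norm
  have hnlt : ∀ x : K, v.valuation K x < 1 → ‖φ (σ' x)‖ < 1 := by
    intro x hx
    by_cases h0 : x = 0
    · rw [h0, map_zero, map_zero, norm_zero]
      exact one_pos
    · have h1 : v.valuation K x ≠ 0 := (_root_.map_ne_zero _).2 h0
      obtain ⟨c, hc⟩ : ∃ c : ℤ, v.valuation K x = WithZero.exp c :=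
        ⟨WithZero.log (v.valuation K x), (WithZero.exp_log h1).symm⟩
      rw [hval _ _ hc]
      have h2 : c < 0 := by
        rw [hc, ← WithZero.exp_zero, WithZero.exp_lt_exp] at hx
        exact hx
      obtain ⟨q, rfl⟩ : ∃ q : ℕ, c = -((q : ℤ) + 1) := ⟨(-c - 1).toNat, by omega⟩
      rw [neg_neg]
      have h3 : ‖(p : C)‖ ^ ((q : ℤ) + 1) = ‖(p : C)‖ ^ (q + 1) := by
        exact_mod_cast zpow_natCast ‖(p : C)‖ (q + 1)
      rw [h3]
      exact pow_lt_one₀ (norm_nonneg _) hp1 (Nat.succ_ne_zero q)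
  have hneq : ∀ x : K, v.valuation K x = 1 → ‖φ (σ' x)‖ = 1 := by
    intro x hx
    rw [hval x 0 (by rw [hx, WithZero.exp_zero]), neg_zero, zpow_zero]
  have hPs : ‖φ (MvPolynomial.eval sQ P)‖ < 1 := by
    obtain ⟨x, hx, hxP⟩ := hsP
    have h1 : MvPolynomial.eval sQ P = σ' x := hrAinj (by rw [hrAσ, ← hxP, hσ'])
    rw [h1]
    exact hnlt x hx
  have hEs : ‖φ (MvPolynomial.eval sQ E)‖ = 1 := by
    obtain ⟨x, hx, hxE⟩ := hsE
    have h1 : MvPolynomial.eval sQ E = σ' x := hrAinj (by rw [hrAσ, ← hxE, hσ'])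
    rw [h1]
    exact hneq x hx
  -- the point of the hypersurface
  let π₀ : MvPolynomial (Fin r) R₀ →+* 𝒦 := π.comp (MvPolynomial.map R₀.subtype)
  have hπ₀ : ∀ x, π₀ x = π (MvPolynomial.map R₀.subtype x) := fun x => rfl
  have hkerθ : ∀ x, π₀ x = 0 → ρ (θ x) = 0 := by
    intro x hx
    obtain ⟨g, hg⟩ := hP _ hx
    have h1 := gauss_nr red hker φ P g (fun m => Nr_le (hRP m)) ⟨m₀, by
        refine le_antisymm (Nr_le (hRP m₀)) ?_
        have h2 : ‖φ (P.coeff m₀)⁻¹‖ ≤ 1 := Nr_le hm₀R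
        rw [map_inv₀, norm_inv] at h2
        have h3 : 0 < ‖φ (P.coeff m₀)‖ := norm_pos_iff.2 ((map_ne_zero φ).2 hm₀)
        by_contra hcon
        rw [not_le] at hcon
        have h4 := one_lt_inv₀ h3 |>.2 hcon
        linarith⟩ (fun m => by
        rw [← hg, MvPolynomial.coeff_map]
        exact Nr_le (x.coeff m).2)
    rw [hρ0, hθφ', hθQ, hg, map_mul, map_mul, norm_mul]
    exact (mul_le_of_le_one_right (norm_nonneg _)
      (norm_eval_le φ g h1 sQ fun l => Nr_le (hNr _ (hs l)))).trans_lt hPs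
  let h₁ : π₀.range →+* 𝕜 := (π₀.rangeRestrict).liftOfSurjective π₀.rangeRestrict_surjective
    ⟨ρ.comp θ, fun x hx => by
      rw [RingHom.mem_ker] at hx ⊢
      exact hkerθ x (congrArg Subtype.val hx)⟩
  have hh₁ : ∀ x, h₁ (π₀.rangeRestrict x) = ρ (θ x) := fun x =>
    RingHom.liftOfRightInverse_comp_apply _ _ _ _ x
  obtain ⟨E₀, hE₀⟩ := lift_sub R₀ E hRE
  have hhE : h₁ (π₀.rangeRestrict E₀) ≠ 0 := by
    rw [hh₁, Ne, hρ0, hθφ', hθQ, hE₀, hEs]
    exact lt_irrefl _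
  obtain ⟨R, hRle, χ, hS₁R, hχ⟩ := ext_sub π₀.range h₁ (π₀.rangeRestrict E₀) hhE (S₁ : Set 𝒦) (by
    intro x hx
    have hx' : x ∈ S₁ := hx
    have h1 := hq x hx'
    have h2 := hq0 x hx'
    -- lift the equation
    obtain ⟨q₀, hq₀, hq₀m⟩ : ∃ q₀ : (MvPolynomial (Fin r) R₀)[X],
        q₀.map (MvPolynomial.map R₀.subtype) = q x ∧ q₀.Monic := by
      have h3 : q x ∈ Polynomial.lifts (MvPolynomial.map R₀.subtype :
          MvPolynomial (Fin r) R₀ →+* MvPolynomial (Fin r) QA) := by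
        rw [Polynomial.lifts_iff_coeff_lifts]
        intro j
        obtain ⟨f₀, hf₀⟩ := lift_sub R₀ ((q x).coeff j) (hRq x hx' j)
        exact ⟨f₀, hf₀⟩
      obtain ⟨q₀, h4, -, h5⟩ := Polynomial.lifts_and_natDegree_eq_and_monic h3 h1
      exact ⟨q₀, h4, h5⟩
    refine ⟨q₀.map π₀.rangeRestrict, hq₀m.map _, ?_⟩
    rw [Polynomial.eval₂_map]
    have h6 : π₀.range.subtype.comp π₀.rangeRestrict = π₀ := RingHom.ext fun y => rfl
    rw [h6]
    have h7 : ((π₀.rangeRestrict E₀ : π₀.range) : 𝒦) = π E := by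
      show π₀ E₀ = _
      rw [hπ₀, hE₀]
    rw [h7, ← h2, ← hq₀, Polynomial.eval₂_map])
  let π₁ : MvPolynomial (Fin r) R₀ →+* R := (Subring.inclusion hRle).comp π₀.rangeRestrict
  have hπ₁ : ∀ x, (π₁ x : 𝒦) = π (MvPolynomial.map R₀.subtype x) := fun x => rfl
  have hdat : ∀ (𝕜' : Type) [Field 𝕜'] (χ' : R →+* 𝕜'),
      (∃ 𝓡 : RD 𝕜' n N W M d D, RDB 𝓡 B₀ ∧ Mem (χ'.comp π₁) FR 𝓡) ∧ CorG (χ'.comp π₁) FR :=
    fun 𝕜' _ χ' => hdat0 R hS₁R π₁ hπ₁ 𝕜' χ'
  obtain ⟨⟨𝓡, hRB, hMem⟩, hCor⟩ := hdat 𝕜 χ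
  have hθ0' : ∀ x, ρ (θ x) = χ (π₁ x) := by
    intro x
    rw [← hh₁]
    exact (hχ _).symm
  have hθ0 : ρ.comp θ = χ.comp π₁ := RingHom.ext hθ0'
  have hne1 : ∀ r : Nr C p, ρ r ≠ 0 → ‖(r : C)‖ = 1 := fun r hr =>
    le_antisymm (Nr_le r.2) (not_lt.1 fun h => hr ((hρ0 r).2 h))
  have hMem' : Mem ρ (fun t => MvPolynomial.map θ (FR t)) 𝓡 := by
    constructor
    · intro c i s' j hij h1 h2
      rw [chI_map, hθ0]
      exact hMem.m1 c i s' j hij h1 h2
    · intro c v' w' h1 h2 h3 h4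
      rw [chI_map, hθ0]
      exact hMem.m2 c v' w' h1 h2 h3 h4
  have hCor' : Cor ρ (fun t => MvPolynomial.map θ (FR t)) := by
    intro i j hij
    obtain ⟨a, b, g, h3, h4, h5, h6, -, h8⟩ := hCor i j hij
    exact ⟨a, b, fun u v => θ (g u v), by rw [hθ0']; exact h3, by rw [hθ0']; exact h4,
      by rw [hθ0']; exact h5, by rw [hθ0']; exact h6, bh_span_map θ h8⟩
  obtain ⟨ht, rho, hht, hpt⟩ := (Y427.ZX.pt2 Y151.ZX.eva) C p 𝕜 ρ hρs hp0 hp1 hρ0 n κ _
    (fun t => (hHom t).map θ) hCor' N W M d D 𝓡 hMem'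
  set pu : Cˣ := Units.mk0 (p : C) (norm_pos_iff.1 hp0) with hpu
  have hΛex : ∀ i, ∃ Λ : Cˣ, (Λ : C) = φ (σ' (lam i)) ∧
      Λ * pu ^ (w i * e) ∈ GG C p 0 le_rfl one_pos := by
    intro i
    refine Lam_unit2 hp0 (hval _ _ (hw i).2.2) ?_ rfl
    have h1 : φ (σ' (lam i)) * (p : C) ^ (w i * e) = φ (σ' (lam i * (p : K) ^ (w i * e))) := by
      simp
    rw [h1]
    apply hNr
    rw [map_mul, map_pow, (hw i).2.2, val_p hpv hpv2, ← WithZero.exp_nsmul, ← WithZero.exp_add]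
    simp
  choose Λ hΛ1 hΛ2 using hΛex
  have q1 : N ≤ B := by omega
  have q2 : M ≤ B := by omega
  have q3 : d ≤ B := by omega
  have q4 : D ≤ B := by omega
  have e1 : 16 * D ^ 2 * d ^ 2 ≤ 16 * B ^ 2 * B ^ 2 := by gcongr
  have e2 : 16 * d ^ 2 + 2 ≤ 16 * B ^ 2 + 2 := by gcongr
  have e3 : 2 * M ^ 2 ≤ 2 * B ^ 2 := by gcongr
  have e4 : B * (D + 1) + 1 ≤ B * (B + 1) + 1 := by gcongr
  let 𝓛 : LB C p k 𝕜 n N W M d D B :=
    { φ := φ, red := red, hker := hker, hp0 := hp0, hp1 := hp1, ρ := ρ, hρs := hρs, ι := ι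
      hι := hι, 𝓡 := 𝓡, h𝓡 := hRB.mono (by omega), ht := ht, hht := hht, rho := rho
      Λ := Λ, w := w, hw := fun i => ⟨(hw i).1, (hw i).2.1⟩, e := e, he := he, pu := pu
      hpu := rfl, hΛ := hΛ2
      b1 := by omega
      b2 := by omega
      b3 := by omega
      b4 := by omega
      b5 := by omega
      b6 := by omega
      b7 := by omega
      b8 := by omega
      hB := by omega
      hN := hN
      hM := hM }
  -- the model over `QA`
  set F' : κ → MvPolynomial (Fin n × Bool) QA := fun t =>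
    MvPolynomial.map (MvPolynomial.eval sQ) (F t) with hF'
  have hF'R : ∀ t, F' t = MvPolynomial.map θQ (FR t) := by
    intro t
    show MvPolynomial.map (MvPolynomial.eval sQ) (F t) = _
    rw [← hFR t, MvPolynomial.map_map]
    congr 1
    refine MvPolynomial.ringHom_ext ?_ ?_
    · intro r
      simp [θQ]
    · intro l
      simp [θQ]
  have hrσ : rA.comp (MvPolynomial.eval sQ) = MvPolynomial.eval₂Hom rA (fun l => σ (s l)) := by
    refine MvPolynomial.ringHom_ext ?_ ?_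
    · intro r
      simp
    · intro l
      simp [sQ, hσ']
  have hVF : VF F' = VS F (fun l => σ (s l)) := by
    ext y
    show (∀ t, _ = _) ↔ ∀ t, _ = _
    refine forall_congr' fun t => ?_
    rw [hF', MvPolynomial.eval₂_map, hrσ]
  have hgen : ∀ i j : Fin n, i ≠ j → ∃ (a b : ℕ) (g : ℕ → ℕ → QA), g 0 0 ≠ 0 ∧ g a 0 ≠ 0 ∧
      g 0 b ≠ 0 ∧ g a b ≠ 0 ∧ (∀ c : QA, ∃ v ≤ b, ∑ u ∈ Finset.range (a + 1), g u v * c ^ u ≠ 0) ∧
      bh i j a b g ∈ Ideal.span (Set.range F') := by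
    intro i j hij
    obtain ⟨a, b, g, h3, h4, h5, h6, h7, h8⟩ := (hdat k (ι.comp χ)).2 i j hij
    have hn1 : ∀ x : MvPolynomial (Fin r) R₀, ((ι.comp χ).comp π₁) x ≠ 0 →
        ‖φ (θQ x)‖ = 1 := by
      intro x hx
      rw [← hθφ']
      apply hne1
      rw [hθ0']
      intro h0
      apply hx
      rw [RingHom.comp_apply, RingHom.comp_apply, h0, map_zero]
    have hn0 : ∀ x : MvPolynomial (Fin r) R₀, ((ι.comp χ).comp π₁) x ≠ 0 →
        θQ x ≠ 0 := fun x hx h0 => by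
      have := hn1 x hx
      rw [h0, map_zero, norm_zero] at this
      exact zero_ne_one this
    refine ⟨a, b, fun u v => θQ (g u v), hn0 _ h3, hn0 _ h4, hn0 _ h5, hn0 _ h6, ?_, ?_⟩
    · refine nonvert φ red hker (fun u v => by rw [← hθφ']; exact Nr_le (θ (g u v)).2)
        (hn1 _ h6) ?_
      intro c
      obtain ⟨v', hv', hne⟩ := h7 c
      refine ⟨v', hv', ?_⟩
      convert hne using 3 with u hu
      have h9 : (⟨φ (θQ (g u v')), by rw [← hθφ']; exact Nr_le (θ (g u v')).2⟩ : OO C) =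
          ⟨((θ (g u v') : Nr C p) : C), Nr_le (θ (g u v')).2⟩ := Subtype.ext (hθφ' _).symm
      rw [h9, ← hι, hθ0']
      rfl
    · have h9 : F' = fun t => MvPolynomial.map θQ (FR t) := funext hF'R
      rw [h9]
      exact bh_span_map θQ h8
  have hfin := finish core_all Y219.ZX.fin 𝓛 hgen (lam := fun i => σ' (lam i))
    (fun i => (hΛ1 i).symm) (Γ := intAt σ v) (by
      rintro _ ⟨x, hx, rfl⟩
      exact ⟨σ' x, hσ' x, Nr_le (hNr x hx)⟩) (by
      intro s' hs'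
      refine hpt _ fun t => ?_
      have h1 := congrArg φ (hs' t)
      rw [map_zero, hF'R, MvPolynomial.eval_map] at h1
      rw [MvPolynomial.eval₂_map, chv_map φ none s', ← h1, hθφ]
      exact (MvPolynomial.eval₂_comp_left φ θQ (chv none s') (FR t)).symm)
  rw [hVF] at hfin
  simp only [hσ'] at hfin
  exact hfin

end Pool.Agent.Q170.FP
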