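import Pool.Agent.Q170.FP.Count

/-!
The norm of a polynomial with integral coefficients in a number field (helper file).
-/

set_option autoImplicit false

namespace Pool.Agent.Q170.FP

open MvPolynomial NumberField IsDedekindDomain

section sepR

variable {R : Type} [CommRing R] {r : ℕ}

/-- the ring isomorphism which singles out the variable `j` -/
noncomputable def sepR (R : Type) [CommRing R] {r : ℕ} (j : Fin r) :
    MvPolynomial (Fin r) R ≃ₐ[R] Polynomial (MvPolynomial {i : Fin r // i ≠ j} R) :=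
  (renameEquiv R (Equiv.optionSubtypeNe j).symm).trans (optionEquivLeft R {i : Fin r // i ≠ j})

theorem natDegree_sepR (j : Fin r) (P : MvPolynomial (Fin r) R) :
    (sepR R j P).natDegree = degreeOf j P := by
  rw [sepR, AlgEquiv.trans_apply, natDegree_optionEquivLeft, renameEquiv_apply]
  have h1 := degreeOf_rename_of_injective (p := P) (Equiv.optionSubtypeNe j).symm.injective j
  rw [Equiv.optionSubtypeNe_symm_self] at h1
  exact h1

theorem degreeOf_inj {R S τ : Type} [CommRing R] [CommRing S] (f : R →+* S)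
    (hf : Function.Injective f) (p : MvPolynomial τ R) (j : τ) :
    degreeOf j (map f p) = degreeOf j p := by
  rw [degreeOf_eq_sup, degreeOf_eq_sup, support_map_of_injective _ hf]

theorem sepR_symm_C (j : Fin r) (c : MvPolynomial {i : Fin r // i ≠ j} R) :
    (sepR R j).symm (Polynomial.C c) = rename Subtype.val c := by
  rw [AlgEquiv.symm_apply_eq, sepR, AlgEquiv.trans_apply, renameEquiv_apply, rename_rename]
  have h1 : ((Equiv.optionSubtypeNe j).symm ∘ Subtype.val : {i : Fin r // i ≠ j} → _) = some := by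
    funext i
    rw [Function.comp_apply, Equiv.optionSubtypeNe_symm_of_ne i.2]
  rw [h1]
  induction c using MvPolynomial.induction_on with
  | C a => simp
  | add p q hp hq => rw [map_add, map_add, map_add, hp, hq]
  | mul_X p i hp => rw [map_mul, map_mul, map_mul, hp, rename_X, optionEquivLeft_X_some]

end sepR

variable (L : Type) [Field L] [NumberField L]

theorem norm_emb (x : 𝓞 L) : ((Algebra.norm ℤ x : ℤ) : ℂ) = ∏ σ : L →ₐ[ℚ] ℂ, σ (x : L) := by
  have h1 := Algebra.norm_eq_prod_embeddings ℚ ℂ (x : L)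
  rw [← h1, ← Algebra.coe_norm_int x]
  simp

/-- the norm of a polynomial -/
theorem exists_norm {τ : Type} [Finite τ] (f : MvPolynomial τ (𝓞 L)) :
    ∃ N : MvPolynomial τ ℤ, (∀ t : τ → ℤ, eval t N =
      Algebra.norm ℤ (eval (fun i => (t i : 𝓞 L)) f)) ∧
      map (Int.castRingHom ℂ) N = ∏ σ : L →ₐ[ℚ] ℂ, map (σ.toRingHom.comp (algebraMap (𝓞 L) L)) f := by
  classical
  let b := Module.Free.chooseBasis ℤ (𝓞 L)
  let φ := Algebra.leftMulMatrix b
  let M : Matrix _ _ (MvPolynomial τ ℤ) :=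
    Matrix.of fun i j => ∑ m ∈ f.support, monomial m (φ (f.coeff m) i j)
  have hM : ∀ t : τ → ℤ, eval t M.det = Algebra.norm ℤ (eval (fun i => (t i : 𝓞 L)) f) := by
    intro t
    rw [Algebra.norm_eq_matrix_det b, RingHom.map_det]
    congr 1
    ext i j
    rw [RingHom.mapMatrix_apply, Matrix.map_apply]
    simp only [M, Matrix.of_apply]
    rw [map_sum]
    have h1 : eval (fun i => (t i : 𝓞 L)) f =
        ∑ m ∈ f.support, (∏ i ∈ m.support, t i ^ m i) • f.coeff m := by
      rw [eval_eq]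
      refine Finset.sum_congr rfl fun m _ => ?_
      rw [zsmul_eq_mul, mul_comm]
      push_cast
      rfl
    rw [h1, map_sum, Matrix.sum_apply]
    refine Finset.sum_congr rfl fun m _ => ?_
    rw [map_smul, Matrix.smul_apply, eval_monomial, smul_eq_mul, mul_comm]
    rfl
  refine ⟨M.det, hM, ?_⟩
  refine funext_set (fun _ => Set.range (fun z : ℤ => (z : ℂ)))
    (fun _ => Set.infinite_range_of_injective Int.cast_injective) fun x hx => ?_
  choose t ht using fun i => hx i (Set.mem_univ i)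
  have hx' : x = fun i => Int.castRingHom ℂ (t i) := funext fun i => (ht i).symm
  rw [hx', eval_map, map_prod]
  have h2 := eval₂_comp_left (Int.castRingHom ℂ) (RingHom.id ℤ) t M.det
  rw [RingHom.comp_id] at h2
  have h3 : eval₂ (Int.castRingHom ℂ) (fun i => Int.castRingHom ℂ (t i)) M.det =
      ((eval t M.det : ℤ) : ℂ) := h2.symm
  rw [h3, hM, norm_emb]
  refine Finset.prod_congr rfl fun σ _ => ?_
  rw [eval_map]
  have h4 := eval₂_comp_left (σ.toRingHom.comp (algebraMap (𝓞 L) L)) (RingHom.id (𝓞 L))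
    (fun i => (t i : 𝓞 L)) f
  rw [RingHom.comp_id] at h4
  refine h4.trans ?_
  congr 1
  funext i
  simp

theorem norm_ne {τ : Type} [Finite τ] (f : MvPolynomial τ (𝓞 L)) (hf : f ≠ 0)
    (N : MvPolynomial τ ℤ) (hN : map (Int.castRingHom ℂ) N =
      ∏ σ : L →ₐ[ℚ] ℂ, map (σ.toRingHom.comp (algebraMap (𝓞 L) L)) f) : N ≠ 0 := by
  rintro rfl
  rw [map_zero] at hN
  obtain ⟨σ, -, hσ⟩ := Finset.prod_eq_zero_iff.1 hN.symm
  refine hf (map_injective _ ?_ (hσ.trans (map_zero _).symm))
  exact σ.toRingHom.injective.comp (FaithfulSMul.algebraMap_injective (𝓞 L) L)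

theorem norm_deg {r : ℕ} (f : MvPolynomial (Fin r) (𝓞 L)) (hf : f ≠ 0) (j : Fin r)
    (hj : 0 < degreeOf j f)
    (N : MvPolynomial (Fin r) ℤ) (hN : map (Int.castRingHom ℂ) N =
      ∏ σ : L →ₐ[ℚ] ℂ, map (σ.toRingHom.comp (algebraMap (𝓞 L) L)) f) : 0 < degreeOf j N := by
  classical
  have hinj : ∀ σ : L →ₐ[ℚ] ℂ, Function.Injective (σ.toRingHom.comp (algebraMap (𝓞 L) L)) :=
    fun σ => σ.toRingHom.injective.comp (FaithfulSMul.algebraMap_injective (𝓞 L) L)
  have h1 : degreeOf j (map (Int.castRingHom ℂ) N) = degreeOf j N :=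
    degreeOf_inj _ Int.cast_injective N j
  rw [← h1, ← natDegree_sepR, hN, map_prod, Polynomial.natDegree_prod]
  · obtain ⟨σ⟩ : Nonempty (L →ₐ[ℚ] ℂ) := ⟨IsAlgClosed.lift⟩
    refine lt_of_lt_of_le ?_ (Finset.single_le_sum (f := fun σ : L →ₐ[ℚ] ℂ =>
      (sepR ℂ j (map (σ.toRingHom.comp (algebraMap (𝓞 L) L)) f)).natDegree)
      (fun _ _ => Nat.zero_le _) (Finset.mem_univ σ))
    beta_reduce
    rw [natDegree_sepR, degreeOf_inj _ (hinj σ) f j]
    exact hj
  · intro σ _ h0
    rw [map_eq_zero_iff _ (sepR ℂ j).injective] at h0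
    exact hf (map_injective _ (hinj σ) (h0.trans (map_zero _).symm))

/-- a prime divisor of the norm comes from a place -/
theorem place_of_norm (x : 𝓞 L) (p : ℕ) (hp : p.Prime) (h : (p : ℤ) ∣ Algebra.norm ℤ x) :
    ∃ v : HeightOneSpectrum (𝓞 L), (p : 𝓞 L) ∈ v.asIdeal ∧ x ∈ v.asIdeal := by
  classical
  have hne : Ideal.span {x, (p : 𝓞 L)} ≠ ⊤ := by
    intro htop
    have h1 : (1 : 𝓞 L) ∈ Ideal.span {x, (p : 𝓞 L)} := by
      rw [htop]
      exact Submodule.mem_top
    obtain ⟨a, b, hab⟩ := Ideal.mem_span_pair.1 h1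
    let B := Module.Free.chooseBasis ℤ (𝓞 L)
    let φ := Algebra.leftMulMatrix B
    have h2 : ((Algebra.norm ℤ (a * x) : ℤ) : ZMod p) = 1 := by
      have h3 : a * x = 1 - b * p := by
        rw [← hab]
        ring
      rw [h3, Algebra.norm_eq_matrix_det B]
      have h4 : ((φ (1 - b * p)).det : ZMod p) = ((φ (1 - b * p)).map (Int.castRingHom (ZMod p))).det := by
        rw [← RingHom.mapMatrix_apply, ← RingHom.map_det]
        rfl
      refine h4.trans ?_
      have h5 : (φ (1 - b * p)).map (Int.castRingHom (ZMod p)) = 1 := by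
        have h6 : φ (1 - b * p) = 1 - (p : ℤ) • φ b := by
          rw [← map_smul, map_sub, map_one]
          congr 2
          rw [zsmul_eq_mul, mul_comm]
          push_cast
          rfl
        rw [h6]
        ext i j
        rw [Matrix.map_apply, Matrix.sub_apply, Matrix.smul_apply, smul_eq_mul]
        rw [map_sub, map_mul]
        have h7 : (Int.castRingHom (ZMod p)) (p : ℤ) = 0 := by simp
        rw [h7, zero_mul, sub_zero, Matrix.one_apply, Matrix.one_apply]
        split_ifs <;> simp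
      rw [h5, Matrix.det_one]
    rw [map_mul] at h2
    have h3 : ((Algebra.norm ℤ x : ℤ) : ZMod p) = 0 := (ZMod.intCast_zmod_eq_zero_iff_dvd _ _).2 h
    push_cast at h2
    rw [h3, mul_zero] at h2
    have := Fact.mk hp
    exact zero_ne_one h2
  obtain ⟨m, hm, hle⟩ := Ideal.exists_le_maximal _ hne
  have hpm : (p : 𝓞 L) ∈ m := hle (Ideal.subset_span (by simp))
  refine ⟨⟨m, hm.isPrime, ?_⟩, hpm, hle (Ideal.subset_span (by simp))⟩
  rintro rfl
  have : (p : 𝓞 L) = 0 := by simpa using hpm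
  exact hp.ne_zero (by exact_mod_cast this)

/-- elements of a place have norms divisible by the residue characteristic -/
theorem dvd_norm (x : 𝓞 L) (p : ℕ) (hp : p.Prime) (v : HeightOneSpectrum (𝓞 L))
    (hpv : (p : 𝓞 L) ∈ v.asIdeal) (hx : x ∈ v.asIdeal) : (p : ℤ) ∣ Algebra.norm ℤ x := by
  have h1 : ((Ideal.absNorm (Ideal.span {x}) : ℕ) : 𝓞 L) ∈ v.asIdeal :=
    (Ideal.span_singleton_le_iff_mem _).2 hx (Ideal.absNorm_mem _)
  rw [Ideal.absNorm_span_singleton] at h1
  by_contra hcon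
  have h2 : IsCoprime (p : ℤ) ((Algebra.norm ℤ x).natAbs : ℤ) := by
    rw [Int.isCoprime_iff_gcd_eq_one, Int.gcd_natCast_natCast]
    refine (Nat.Prime.coprime_iff_not_dvd hp).2 fun h => hcon ?_
    exact Int.natCast_dvd.2 h
  obtain ⟨a, b, hab⟩ := h2
  apply v.isPrime.ne_top
  rw [Ideal.eq_top_iff_one]
  have h3 : (1 : 𝓞 L) = (a : 𝓞 L) * (p : 𝓞 L) + (b : 𝓞 L) * ((Algebra.norm ℤ x).natAbs : 𝓞 L) := by
    have h4 := congrArg (Int.castRingHom (𝓞 L)) hab
    rw [map_add, map_mul, map_mul, map_one, map_natCast, map_natCast] at h4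
    exact h4.symm
  rw [h3]
  exact Ideal.add_mem _ (Ideal.mul_mem_left _ _ hpv) (Ideal.mul_mem_left _ _ h1)

end Pool.Agent.Q170.FP
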