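import Pool.Agent.Q170.FP.Gen
import Pool.Agent.Q170.FP.Norm

/-!
Families of curves with several parameters with one degenerate hypersurface (helper file).
-/

set_option autoImplicit false
set_option linter.unusedSectionVars false

open UpperHalfPlane H294ZP IsDedekindDomain NumberField

namespace Pool.Agent.Q170.FP

open Pool.Agent.Y226 Pool.Agent.Y226.ZG Pool.Agent.Y226.ZM Pool.Agent.Y226.ZU Pool.Agent.Y92.ZX
open Pool.Agent.Q170.ZP.Count (box mem_box bezout)
open MvPolynomial (eval eval₂ eval₂Hom degreeOf rename)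

/-- the member at `t` of the family -/
def memH {n r : ℕ} {κ : Type} (F : κ → MvPolynomial (Fin n × Bool) (MvPolynomial (Fin r) QA))
    (f g : Fin n → MvPolynomial (Fin r) QA) (P : MvPolynomial (Fin r) QA) (w : Fin n → ℕ)
    (t : Fin r → ℂ) : Set (Fin n → ℂ) :=
  {x | ∃ y ∈ VS F t, ∀ i, x i = eval₂ rA t (f i) / (eval₂ rA t P ^ w i * eval₂ rA t (g i)) * y i}

/-- a member over a zero of `P` is trivial -/
theorem memH_zero {n r : ℕ} {κ : Type}
    (F : κ → MvPolynomial (Fin n × Bool) (MvPolynomial (Fin r) QA))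
    (f g : Fin n → MvPolynomial (Fin r) QA) (P : MvPolynomial (Fin r) QA) (w : Fin n → ℕ)
    (hw : ∀ i, 0 < w i) (t : Fin r → ℂ) (h0 : eval₂ rA t P = 0) (Γ : Set ℂ) :
    ZPC Γ (memH F f g P w t) := by
  have h1 : memH F f g P w t ⊆ {0} := by
    rintro x ⟨y, -, hx⟩
    rw [Set.mem_singleton_iff]
    funext i
    rw [hx i, h0, zero_pow (hw i).ne', zero_mul, div_zero, zero_mul]
    rfl
  exact ⟨(Set.finite_singleton 0).subset fun x hx => h1 hx.1,
    fun _ _ _ => (Set.finite_singleton 0).subset fun x hx => h1 hx.1⟩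

/-- the local criterion -/
theorem crit (n r : ℕ) (κ : Type) [Finite κ] (d₀ : ℕ)
    (F : κ → MvPolynomial (Fin n × Bool) (MvPolynomial (Fin r) QA)) (t₀ : Fin r → ℂ)
    (P : MvPolynomial (Fin r) QA) (hP0 : P ≠ 0) (hP : ∀ f, eval₂Hom rA t₀ f = 0 → P ∣ f)
    (hF : GM d₀ (eval₂Hom rA t₀) F) (f g : Fin n → MvPolynomial (Fin r) QA) (w : Fin n → ℕ)
    (hw : ∀ i, 0 < w i) :
    ∃ (Q : ℕ) (E : MvPolynomial (Fin r) QA), eval₂Hom rA t₀ E ≠ 0 ∧
    ∀ (K : Type) [Field K] [NumberField K]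
    (σ : K →+* ℂ) (v : HeightOneSpectrum (𝓞 K)) (p : ℕ), p.Prime → Q < p → (p : 𝓞 K) ∈ v.asIdeal →
    (p : 𝓞 K) ∉ v.asIdeal ^ 2 → ∀ s : Fin r → K, (∀ l, v.valuation K (s l) ≤ 1) →
    ∀ (a b : K) (u : Fin n → K), σ a = eval₂ rA (fun l => σ (s l)) P → v.valuation K a < 1 →
    σ b = eval₂ rA (fun l => σ (s l)) E → v.valuation K b = 1 →
    (∀ i, σ (u i) = eval₂ rA (fun l => σ (s l)) (f i) / eval₂ rA (fun l => σ (s l)) (g i) ∧
      v.valuation K (u i) = 1) →
    ZPC (intAt σ v) (memH F f g P w (fun l => σ (s l))) := by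
  classical
  obtain ⟨Q, E, hE, h⟩ := loc_gen n r (∑ i, w i) κ d₀ F t₀ P hP0 hP hF
  refine ⟨Q, E, hE, ?_⟩
  intro K _ _ σ v p hp hQp hpv hpv2 s hs a b u ha hav hb hbv hu
  by_cases ha0 : a = 0
  · refine memH_zero F f g P w hw _ ?_ _
    rw [← ha, ha0, map_zero]
  obtain ⟨e, he, hve⟩ := exists_exp v ha0 hav
  have h1 := h K σ v p hp hQp hpv hpv2 s hs ⟨a, hav, ha⟩ ⟨b, hbv, hb⟩
    (fun i => u i / a ^ w i) e w he (fun i => ⟨hw i,
      Finset.single_le_sum (f := w) (fun _ _ => Nat.zero_le _) (Finset.mem_univ i), by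
      rw [map_div₀, map_pow, (hu i).2, hve, ← WithZero.exp_nsmul, one_div, ← WithZero.exp_neg]
      congr 1
      push_cast
      simp⟩)
  have hset : memH F f g P w (fun l => σ (s l)) =
      {x | ∃ y ∈ VS F (fun l => σ (s l)), ∀ i, x i = σ (u i / a ^ w i) * y i} := by
    ext x
    unfold memH
    constructor
    · rintro ⟨y, hy, hx⟩
      refine ⟨y, hy, fun i => ?_⟩
      rw [hx i, map_div₀, map_pow, (hu i).1, ha, div_div, mul_comm (eval₂ rA _ P ^ w i)]
    · rintro ⟨y, hy, hx⟩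
      refine ⟨y, hy, fun i => ?_⟩
      rw [hx i, map_div₀, map_pow, (hu i).1, ha, div_div, mul_comm (eval₂ rA _ P ^ w i)]
  rw [hset]
  exact h1

section lifts

variable {τ : Type}

/-- lifting to a field which contains the coefficients -/
theorem lift_field (L : IntermediateField ℚ QA) (f : MvPolynomial τ QA)
    (hf : ∀ x ∈ f.coeffs, x ∈ L) : ∃ f' : MvPolynomial τ L,
      MvPolynomial.map (algebraMap L QA) f' = f := by
  have h : f ∈ Set.range (MvPolynomial.map (algebraMap L QA)) := by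
    rw [MvPolynomial.mem_range_map_iff_coeffs_subset]
    intro c hc
    exact ⟨⟨c, hf c hc⟩, rfl⟩
  obtain ⟨g, hg⟩ := h
  exact ⟨g, hg⟩

/-- clearing denominators -/
theorem clear (L : Type) [Field L] [NumberField L] (f : MvPolynomial τ L) :
    ∃ (b : 𝓞 L) (f' : MvPolynomial τ (𝓞 L)), b ≠ 0 ∧
      MvPolynomial.map (algebraMap (𝓞 L) L) f' = MvPolynomial.C (algebraMap (𝓞 L) L b) * f := by
  classical
  obtain ⟨b, hb⟩ := IsLocalization.exist_integer_multiples_of_finset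
    (nonZeroDivisors (𝓞 L)) f.coeffs
  refine ⟨b, ?_⟩
  have h : MvPolynomial.C (algebraMap (𝓞 L) L b) * f ∈
      Set.range (MvPolynomial.map (algebraMap (𝓞 L) L)) := by
    rw [MvPolynomial.mem_range_map_iff_coeffs_subset]
    intro c hc
    obtain ⟨m, hm, rfl⟩ := MvPolynomial.mem_coeffs_iff.1 hc
    rw [MvPolynomial.coeff_C_mul]
    have hm0 : f.coeff m ≠ 0 := by
      intro h0
      rw [MvPolynomial.mem_support_iff, MvPolynomial.coeff_C_mul, h0, mul_zero] at hm
      exact hm rfl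
    obtain ⟨y, hy⟩ := hb (f.coeff m) (MvPolynomial.coeff_mem_coeffs m hm0)
    refine ⟨y, ?_⟩
    rw [hy, Algebra.smul_def]
  obtain ⟨f', hf'⟩ := h
  exact ⟨f', nonZeroDivisors.coe_ne_zero b, hf'⟩

end lifts

/-- integrality of values -/
theorem val_eval_le {L : Type} [Field L] [NumberField L] (v : HeightOneSpectrum (𝓞 L)) {τ : Type}
    (f : MvPolynomial τ L) (hf : ∀ x ∈ f.coeffs, v.valuation L x ≤ 1) {s : τ → L}
    (hs : ∀ i, v.valuation L (s i) ≤ 1) : v.valuation L (eval s f) ≤ 1 := by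
  classical
  rw [MvPolynomial.eval_eq]
  refine Valuation.map_sum_le _ fun m hm => ?_
  rw [map_mul, map_prod]
  refine mul_le_one' (hf _ ?_) (Finset.prod_le_one' fun i _ => ?_)
  · exact MvPolynomial.coeff_mem_coeffs m (MvPolynomial.mem_support_iff.1 hm)
  · rw [map_pow]
    exact pow_le_one' (hs i) _

end Pool.Agent.Q170.FP
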